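import Mathlib

/-!
# Determinants: a weighted cyclic shift, and block circulant matrices
-/

namespace Pool.Agent.H45.Lueck

open Matrix Finset

/-- the rotation `i ↦ i + 1` of `ZMod (k+2)` has sign `(-1)^(k+1)` -/
theorem sign_rot (k : ℕ) :
    Equiv.Perm.sign (Equiv.addRight (1 : ZMod (k + 2))) = (-1) ^ (k + 1) := by
  have h : (Equiv.addRight (1 : ZMod (k + 2)) : Equiv.Perm (ZMod (k + 2))) =
      (finRotate (k + 2) : Equiv.Perm (Fin (k + 2))) := by
    apply Equiv.ext
    intro i
    exact (finRotate_apply (n := k + 2) i).symm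
  have h2 : Equiv.Perm.sign (finRotate (k + 2)) = (-1) ^ (k + 1) := by
    rw [sign_finRotate]; rfl
  rw [← h2]
  exact congrArg (fun σ : Equiv.Perm (Fin (k + 2)) => Equiv.Perm.sign σ) h

/-- the determinant of `1 -` a weighted cyclic shift on `ZMod (k+2)` -/
theorem det_one_sub_cyc_aux (k : ℕ) (w : ZMod (k + 2) → ℂ) :
    (Matrix.of fun i j : ZMod (k + 2) =>
      (if i = j then (1 : ℂ) else 0) - (if i = j + 1 then w j else 0)).det = 1 - ∏ j, w j := by
  classical
  rw [Matrix.det_apply]
  have : Fact (1 < k + 2) := ⟨by omega⟩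
  have hj1 : ∀ j : ZMod (k + 2), j ≠ j + 1 := by
    intro j h
    have h1 : (1 : ZMod (k + 2)) = 0 := by
      have := h.symm
      rwa [add_eq_left] at this
    exact one_ne_zero h1
  have hne : (1 : Equiv.Perm (ZMod (k + 2))) ≠ Equiv.addRight (1 : ZMod (k + 2)) := by
    intro h
    have := congrArg (fun σ : Equiv.Perm (ZMod (k + 2)) => σ 0) h
    simp only [Equiv.Perm.coe_one, id_eq, Equiv.coe_addRight] at this
    exact hj1 0 this
  have hzero : ∀ σ : Equiv.Perm (ZMod (k + 2)), σ ≠ 1 → σ ≠ Equiv.addRight (1 : ZMod (k + 2)) →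
      ∏ i, (Matrix.of fun i j : ZMod (k + 2) =>
      (if i = j then (1 : ℂ) else 0) - (if i = j + 1 then w j else 0)) (σ i) i = 0 := by
    intro σ h1 h2
    by_contra hprod
    have hall : ∀ i, σ i = i ∨ σ i = i + 1 := by
      intro i
      by_contra hi
      push Not at hi
      apply hprod
      apply Finset.prod_eq_zero (Finset.mem_univ i)
      simp [hi.1, hi.2]
    have hex : ∃ i, σ i = i + 1 := by
      by_contra hno
      push Not at hno
      apply h1
      apply Equiv.ext
      intro i
      rcases hall i with h | h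
      · simp [h]
      · exact absurd h (hno i)
    obtain ⟨i0, hi0⟩ := hex
    have hstep : ∀ n : ℕ, σ (i0 + (n : ZMod (k + 2))) = i0 + (n : ZMod (k + 2)) + 1 := by
      intro n
      induction n with
      | zero => simpa using hi0
      | succ n ih =>
        have h3 : i0 + ((n + 1 : ℕ) : ZMod (k + 2)) = i0 + (n : ZMod (k + 2)) + 1 := by
          push_cast; ring
        rcases hall (i0 + ((n + 1 : ℕ) : ZMod (k + 2))) with h | h
        · exfalso
          have h4 : σ (i0 + ((n + 1 : ℕ) : ZMod (k + 2))) = σ (i0 + (n : ZMod (k + 2))) := by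
            rw [h, ih, h3]
          have h5 := σ.injective h4
          rw [h3] at h5
          exact hj1 _ h5.symm
        · exact h
    apply h2
    apply Equiv.ext
    intro i
    have h6 := hstep (i - i0).val
    rw [ZMod.natCast_zmod_val] at h6
    have h7 : i0 + (i - i0) = i := by ring
    rw [h7] at h6
    rw [h6]
    rfl
  rw [← Finset.sum_subset (Finset.subset_univ {1, Equiv.addRight (1 : ZMod (k + 2))})]
  · rw [Finset.sum_pair hne]
    have e1 : ∏ i : ZMod (k + 2), (Matrix.of fun i j : ZMod (k + 2) =>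
      (if i = j then (1 : ℂ) else 0) - (if i = j + 1 then w j else 0))
        ((1 : Equiv.Perm (ZMod (k + 2))) i) i = 1 := by
      apply Finset.prod_eq_one
      intro i _
      simp
    have e2 : ∏ i : ZMod (k + 2), (Matrix.of fun i j : ZMod (k + 2) =>
      (if i = j then (1 : ℂ) else 0) - (if i = j + 1 then w j else 0))
        ((Equiv.addRight (1 : ZMod (k + 2))) i) i = (-1) ^ (k + 2) * ∏ j, w j := by
      have : ∀ i : ZMod (k + 2), (Matrix.of fun i j : ZMod (k + 2) =>
        (if i = j then (1 : ℂ) else 0) - (if i = j + 1 then w j else 0))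
        ((Equiv.addRight (1 : ZMod (k + 2))) i) i = (-1) * w i := by
        intro i
        simp only [Equiv.coe_addRight, Matrix.of_apply, if_true]
        rw [if_neg (hj1 i).symm]
        ring
      rw [Finset.prod_congr rfl (fun i _ => this i), Finset.prod_mul_distrib,
        Finset.prod_const, Finset.card_univ, ZMod.card]
    rw [e1, e2, sign_rot]
    simp only [Equiv.Perm.sign_one, one_smul]
    have : ((-1 : ℤˣ) ^ (k + 1)) • ((-1 : ℂ) ^ (k + 2) * ∏ j, w j) = - ∏ j, w j := by
      rw [Units.smul_def]
      push_cast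
      rw [zsmul_eq_mul]
      push_cast
      rw [← mul_assoc, ← pow_add]
      have : k + 1 + (k + 2) = 2 * (k + 1) + 1 := by omega
      rw [this, pow_succ, pow_mul]
      simp
    rw [this]
    ring
  · intro σ _ hσ
    simp only [Finset.mem_insert, Finset.mem_singleton, not_or] at hσ
    rw [hzero σ hσ.1 hσ.2, smul_zero]

/-- the determinant of `1 -` a weighted cyclic shift on `ZMod m` -/
theorem det_one_sub_cyc (m : ℕ) [NeZero m] (w : ZMod m → ℂ) :
    (Matrix.of fun i j : ZMod m =>
      (if i = j then (1 : ℂ) else 0) - (if i = j + 1 then w j else 0)).det = 1 - ∏ j, w j := by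
  rcases m with _ | m
  · exact absurd rfl (NeZero.ne 0)
  rcases m with _ | k
  · have hu : ∀ x : ZMod (0 + 1), x = 0 := fun x => Subsingleton.elim (α := Fin 1) x 0
    have h2 : ∀ i j : ZMod (0 + 1), i = j := fun i j => by rw [hu i, hu j]
    have : Unique (ZMod (0 + 1)) := ⟨⟨0⟩, hu⟩
    rw [Matrix.det_unique, Fintype.prod_unique]
    simp only [Matrix.of_apply]
    rw [if_pos (h2 _ (_ + 1))]
    simp
  · exact det_one_sub_cyc_aux k w

/-- determinants of block circulant matrices -/
theorem det_block_fourier {J K : Type*} [Fintype J] [DecidableEq J] [Fintype K] [DecidableEq K]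
    [AddCommGroup K] (F : J → J → K → ℂ) (U V : Matrix K K ℂ) (hUV : U * V = 1)
    (hchar : ∀ χ κ μ, U (κ + μ) χ = U κ χ * U μ χ) :
    (Matrix.of fun p q : J × K => F p.1 q.1 (p.2 - q.2)).det =
      ∏ χ : K, (Matrix.of fun i j => ∑ μ, F i j μ * U (-μ) χ).det := by
  classical
  set P : Matrix (J × K) (J × K) ℂ :=
    Matrix.of fun p q => if p.1 = q.1 then U p.2 q.2 else 0 with hP
  set Q : Matrix (J × K) (J × K) ℂ :=
    Matrix.of fun p q => if p.1 = q.1 then V p.2 q.2 else 0 with hQ
  set D : Matrix (J × K) (J × K) ℂ :=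
    Matrix.blockDiagonal (fun χ : K => (Matrix.of fun i j => ∑ μ, F i j μ * U (-μ) χ)) with hD
  set A : Matrix (J × K) (J × K) ℂ := Matrix.of fun p q : J × K => F p.1 q.1 (p.2 - q.2) with hA
  have hPQ : P * Q = 1 := by
    ext ⟨i, κ⟩ ⟨j, μ⟩
    rw [Matrix.mul_apply, Fintype.sum_prod_type]
    simp only [hP, hQ, Matrix.of_apply]
    rw [Finset.sum_eq_single i]
    · have := congrFun (congrFun hUV κ) μ
      rw [Matrix.mul_apply] at this
      by_cases hij : i = j
      · subst hij
        simp only [if_true, this, Matrix.one_apply, Prod.mk.injEq, true_and]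
      · simp [hij]
    · intro b _ hb
      apply Finset.sum_eq_zero
      intro x _
      rw [if_neg (Ne.symm hb), zero_mul]
    · simp
  have hAP : A * P = P * D := by
    ext ⟨i, κ⟩ ⟨j, χ⟩
    rw [Matrix.mul_apply, Matrix.mul_apply, Fintype.sum_prod_type, Fintype.sum_prod_type]
    simp only [hP, hA, hD, Matrix.of_apply, Matrix.blockDiagonal_apply]
    have hR : ∑ x : J, ∑ y : K, ((if i = x then U κ y else 0) *
        if y = χ then ∑ μ, F x j μ * U (-μ) y else 0) = U κ χ * ∑ μ, F i j μ * U (-μ) χ := by
      rw [Finset.sum_eq_single i]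
      · rw [Finset.sum_eq_single χ]
        · simp
        · intro b _ hb
          rw [if_neg hb, mul_zero]
        · simp
      · intro b _ hb
        apply Finset.sum_eq_zero
        intro x _
        rw [if_neg (Ne.symm hb), zero_mul]
      · simp
    have hL : ∑ x : J, ∑ y : K, (F i x (κ - y) * if x = j then U y χ else 0) =
        ∑ y : K, F i j (κ - y) * U y χ := by
      rw [Finset.sum_eq_single j]
      · simp
      · intro b _ hb
        apply Finset.sum_eq_zero
        intro x _
        rw [if_neg hb, mul_zero]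
      · simp
    rw [hL, hR, Finset.mul_sum, ← Equiv.sum_comp (Equiv.subLeft κ)]
    apply Finset.sum_congr rfl
    intro μ _
    simp only [Equiv.subLeft_apply]
    have h1 : U (κ - μ) χ = U κ χ * U (-μ) χ := by
      rw [sub_eq_add_neg, hchar]
    have h2 : κ - (κ - μ) = μ := by abel
    rw [h1, h2]
    ring
  have hdet : A.det = D.det := by
    have h1 : P.det * Q.det = 1 := by rw [← Matrix.det_mul, hPQ, Matrix.det_one]
    have h2 : A.det * P.det = P.det * D.det := by rw [← Matrix.det_mul, hAP, Matrix.det_mul]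
    have h3 : P.det ≠ 0 := left_ne_zero_of_mul_eq_one h1
    have h4 : P.det * A.det = P.det * D.det := by rw [mul_comm, h2]
    exact mul_left_cancel₀ h3 h4
  rw [hdet, hD, Matrix.det_blockDiagonal]

end Pool.Agent.H45.Lueck
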