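import Mathlib
import Pool.Agent.H45.LueckCyc

/-!
# The determinant of `1 - c X (1 - Y)` on finite Heisenberg-type quotients
-/

namespace Pool.Agent.H45.Lueck

open Matrix Finset

/-- the character table of `ZMod n × ZMod s` -/
noncomputable def charTab (n s : ℕ) [NeZero n] [NeZero s] :
    Matrix (ZMod n × ZMod s) (ZMod n × ZMod s) ℂ :=
  Matrix.of fun κ χ => ZMod.stdAddChar (κ.1 * χ.1) * ZMod.stdAddChar (κ.2 * χ.2)

theorem charTab_add (n s : ℕ) [NeZero n] [NeZero s] (χ κ μ : ZMod n × ZMod s) :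
    charTab n s (κ + μ) χ = charTab n s κ χ * charTab n s μ χ := by
  simp only [charTab, Matrix.of_apply, Prod.fst_add, Prod.snd_add, add_mul, AddChar.map_add_eq_mul]
  ring

theorem charTab_inv (n s : ℕ) [NeZero n] [NeZero s] :
    charTab n s * (Matrix.of fun χ κ : ZMod n × ZMod s =>
      ((n : ℂ) * s)⁻¹ * (ZMod.stdAddChar (-(κ.1 * χ.1)) * ZMod.stdAddChar (-(κ.2 * χ.2)))) = 1 := by
  ext κ κ'
  rw [Matrix.mul_apply, Fintype.sum_prod_type]
  simp only [charTab, Matrix.of_apply]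
  have h1 : ∀ x : ZMod n, ∀ y : ZMod s,
      (ZMod.stdAddChar (κ.1 * x) * ZMod.stdAddChar (κ.2 * y) : ℂ) * (((n : ℂ) * s)⁻¹ *
        (ZMod.stdAddChar (-(κ'.1 * x)) * ZMod.stdAddChar (-(κ'.2 * y)))) =
      ((n : ℂ) * s)⁻¹ * (ZMod.stdAddChar (x * (κ.1 - κ'.1)) *
        ZMod.stdAddChar (y * (κ.2 - κ'.2))) := by
    intro x y
    have e1 : x * (κ.1 - κ'.1) = κ.1 * x + -(κ'.1 * x) := by ring
    have e2 : y * (κ.2 - κ'.2) = κ.2 * y + -(κ'.2 * y) := by ring
    rw [e1, e2, AddChar.map_add_eq_mul, AddChar.map_add_eq_mul]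
    ring
  simp_rw [h1, ← Finset.mul_sum]
  rw [← Finset.sum_mul, AddChar.sum_mulShift _ (ZMod.isPrimitive_stdAddChar n),
    AddChar.sum_mulShift _ (ZMod.isPrimitive_stdAddChar s)]
  simp only [sub_eq_zero, ZMod.card]
  have hn : (n : ℂ) ≠ 0 := Nat.cast_ne_zero.mpr (NeZero.ne n)
  have hs : (s : ℂ) ≠ 0 := Nat.cast_ne_zero.mpr (NeZero.ne s)
  by_cases h : κ = κ'
  · subst h
    simp
    field_simp
  · rw [Matrix.one_apply_ne h]
    by_cases h2 : κ.1 = κ'.1
    · have h3 : κ.2 ≠ κ'.2 := fun h3 => h (Prod.ext h2 h3)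
      simp [h3]
    · simp [h2]

/-- the complex matrix of `1 - c X + c X Y` in coordinates -/
noncomputable def heisMat (m n s c : ℕ) (r : ZMod m → ZMod s) :
    Matrix (ZMod m × (ZMod n × ZMod s)) (ZMod m × (ZMod n × ZMod s)) ℂ :=
  Matrix.of fun p q =>
    (if p = q then 1 else 0) - (c : ℂ) * (if p = (q.1 + 1, q.2) then 1 else 0)
      + (c : ℂ) * (if p = (q.1 + 1, q.2 + (1, r q.1)) then 1 else 0)

theorem det_heisMat (m n s c : ℕ) [NeZero m] [NeZero n] [NeZero s] (r : ZMod m → ZMod s) :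
    (heisMat m n s c r).det = ∏ χ : ZMod n × ZMod s, (1 - (c : ℂ) ^ m * ∏ a : ZMod m,
      (1 - ZMod.stdAddChar (-χ.1) * ZMod.stdAddChar (-(r a * χ.2)))) := by
  classical
  have h := det_block_fourier (J := ZMod m) (K := ZMod n × ZMod s)
    (fun i j μ => (if i = j then (if μ = 0 then 1 else 0) else 0)
      - (c : ℂ) * (if i = j + 1 then (if μ = 0 then 1 else 0) else 0)
      + (c : ℂ) * (if i = j + 1 then (if μ = (1, r j) then 1 else 0) else 0))
    (charTab n s) _ (charTab_inv n s) (charTab_add n s)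
  have h2 : heisMat m n s c r = (Matrix.of fun p q : ZMod m × (ZMod n × ZMod s) =>
      (if p.1 = q.1 then (if p.2 - q.2 = 0 then 1 else 0) else 0)
      - (c : ℂ) * (if p.1 = q.1 + 1 then (if p.2 - q.2 = 0 then 1 else 0) else 0)
      + (c : ℂ) * (if p.1 = q.1 + 1 then (if p.2 - q.2 = (1, r q.1) then 1 else 0) else 0)) := by
    ext p q
    simp only [heisMat, Matrix.of_apply, sub_eq_iff_eq_add, zero_add]
    have e1 : (p = q) ↔ (p.1 = q.1 ∧ p.2 = q.2) := Prod.ext_iff
    have e2 : (p = (q.1 + 1, q.2)) ↔ (p.1 = q.1 + 1 ∧ p.2 = q.2) := Prod.ext_iff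
    have e3 : (p = (q.1 + 1, q.2 + (1, r q.1))) ↔
      (p.1 = q.1 + 1 ∧ p.2 = (1, r q.1) + q.2) := by
      rw [add_comm (1, r q.1) q.2]; exact Prod.ext_iff
    simp only [e1, e2, e3, ite_and]
  rw [h2, h]
  apply Finset.prod_congr rfl
  intro χ _
  have h3 : ∀ i j : ZMod m, (∑ μ : ZMod n × ZMod s,
      ((if i = j then (if μ = 0 then 1 else 0) else 0)
      - (c : ℂ) * (if i = j + 1 then (if μ = 0 then 1 else 0) else 0)
      + (c : ℂ) * (if i = j + 1 then (if μ = (1, r j) then 1 else 0) else 0)) *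
        charTab n s (-μ) χ) = (if i = j then (1 : ℂ) else 0) - (if i = j + 1 then
        ((c : ℂ) * (1 - ZMod.stdAddChar (-χ.1) * ZMod.stdAddChar (-(r j * χ.2)))) else 0) := by
    intro i j
    have h0 : charTab n s (-0) χ = 1 := by simp [charTab]
    have h1 : charTab n s (-((1 : ZMod n), r j)) χ =
        ZMod.stdAddChar (-χ.1) * ZMod.stdAddChar (-(r j * χ.2)) := by
      simp [charTab]
    have key : ∀ (P Q : Prop) [Decidable P] [Decidable Q], (∑ μ : ZMod n × ZMod s,
      ((if P then (if μ = 0 then 1 else 0) else 0)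
      - (c : ℂ) * (if Q then (if μ = 0 then 1 else 0) else 0)
      + (c : ℂ) * (if Q then (if μ = (1, r j) then 1 else 0) else 0)) *
        charTab n s (-μ) χ) = (if P then (1 : ℂ) else 0) - (if Q then
        ((c : ℂ) * (1 - ZMod.stdAddChar (-χ.1) * ZMod.stdAddChar (-(r j * χ.2)))) else 0) := by
      intro P Q _ _
      simp only [add_mul, sub_mul, Finset.sum_add_distrib, Finset.sum_sub_distrib]
      by_cases hP : P <;> by_cases hQ : Q <;>
        simp only [hP, hQ, if_true, if_false, ite_mul, one_mul, zero_mul, mul_zero,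
          mul_ite, mul_one, Finset.sum_ite_eq', Finset.mem_univ, h0, h1,
          Finset.sum_const_zero] <;> ring
    exact key (i = j) (i = j + 1)
  simp only [h3]
  rw [det_one_sub_cyc, Finset.prod_mul_distrib, Finset.prod_const, Finset.card_univ, ZMod.card]

end Pool.Agent.H45.Lueck
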