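import Mathlib

/-!
# Matrices over integral group rings and log-determinants of their finite quotients
-/

namespace Pool.Agent.H45.Lueck

open Matrix

/-- `A*`, for `A ∈ M_l(ℤG)`: transpose `A` and apply `∑ a_g g ↦ ∑ a_g g⁻¹` to each entry. -/
noncomputable def adjoint {G : Type*} [Group G] {l : ℕ}
    (A : Matrix (Fin l) (Fin l) (MonoidAlgebra ℤ G)) :
    Matrix (Fin l) (Fin l) (MonoidAlgebra ℤ G) :=
  Matrix.of fun i j => MonoidAlgebra.mapDomain (fun g => g⁻¹) (A j i)

/-- The image of `A ∈ M_l(ℤG)` in `M_l(ℤ[G/N])` under the map induced by `G → G/N`. -/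
noncomputable def quotientMatrix {G : Type*} [Group G] {l : ℕ} (N : Subgroup G) [N.Normal]
    (A : Matrix (Fin l) (Fin l) (MonoidAlgebra ℤ G)) :
    Matrix (Fin l) (Fin l) (MonoidAlgebra ℤ (G ⧸ N)) :=
  A.map (MonoidAlgebra.mapDomainRingHom ℤ (QuotientGroup.mk' N))

/-- The matrix, in the standard orthonormal basis, of the operator by which `B ∈ M_l(ℤG)` acts
(from the left) on `ℓ²(G)^l`, for a finite group `G`:
`(B ξ)_i (g) = ∑_j ∑_h B_ij (g h⁻¹) ξ_j (h)`. -/
noncomputable def opMatrix {G : Type*} [Group G] {l : ℕ}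
    (B : Matrix (Fin l) (Fin l) (MonoidAlgebra ℤ G)) :
    Matrix (Fin l × G) (Fin l × G) ℂ :=
  Matrix.of fun p q => (((B p.1 q.1).coeff (p.2 * q.2⁻¹) : ℤ) : ℂ)

/-- `tr (log T) = ∑ log λ` over the nonzero eigenvalues `λ` of the hermitian matrix `T`, counted
with multiplicity. -/
noncomputable def trLog {n : Type*} [Fintype n] [DecidableEq n] {T : Matrix n n ℂ}
    (hT : T.IsHermitian) : ℝ :=
  ∑ i with hT.eigenvalues i ≠ 0, Real.log (hT.eigenvalues i)

theorem opMatrix_adjoint {G : Type*} [Group G] {l : ℕ}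
    (B : Matrix (Fin l) (Fin l) (MonoidAlgebra ℤ G)) :
    opMatrix (adjoint B) = (opMatrix B)ᴴ := by
  ext p q
  simp only [opMatrix, adjoint, Matrix.of_apply, Matrix.conjTranspose_apply]
  have h : (MonoidAlgebra.mapDomain (fun g => g⁻¹) (B q.1 p.1)).coeff (p.2 * q.2⁻¹) =
      (B q.1 p.1).coeff (q.2 * p.2⁻¹) := by
    have h1 : p.2 * q.2⁻¹ = (q.2 * p.2⁻¹)⁻¹ := by simp
    rw [h1, MonoidAlgebra.mapDomain]
    exact Finsupp.mapDomain_apply inv_injective _ _
  rw [h]
  simp

theorem opMatrix_mul {G : Type*} [Group G] [Fintype G] {l : ℕ}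
    (B C : Matrix (Fin l) (Fin l) (MonoidAlgebra ℤ G)) :
    opMatrix (B * C) = opMatrix B * opMatrix C := by
  classical
  ext p q
  simp only [opMatrix, Matrix.of_apply, Matrix.mul_apply, Fintype.sum_prod_type]
  have h : ∀ (x y : MonoidAlgebra ℤ G) (g h : G), ((x * y).coeff (g * h⁻¹) : ℤ) =
      ∑ k : G, x.coeff (g * k⁻¹) * y.coeff (k * h⁻¹) := by
    intro x y g h
    rw [MonoidAlgebra.coeff_mul, Finsupp.sum_fintype _ _ (by intro i; simp [Finsupp.sum])]
    rw [← Equiv.sum_comp ((Equiv.inv G).trans (Equiv.mulLeft g))]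
    apply Finset.sum_congr rfl
    intro k _
    rw [Finsupp.sum_fintype _ _ (by intro i; simp)]
    rw [Finset.sum_eq_single (k * h⁻¹)]
    · simp [mul_assoc]
    · intro b _ hb
      rw [if_neg]
      intro h2
      apply hb
      simp only [Equiv.trans_apply, Equiv.inv_apply, Equiv.coe_mulLeft, mul_assoc] at h2
      have := mul_left_cancel h2
      rw [← this]; group
    · simp
  have h2 : ((∑ j, B p.1 j * C j q.1).coeff (p.2 * q.2⁻¹) : ℤ) =
      ∑ j, ((B p.1 j * C j q.1).coeff (p.2 * q.2⁻¹) : ℤ) := by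
    rw [MonoidAlgebra.coeff_sum, Finsupp.finsetSum_apply]
  rw [h2]
  push_cast
  apply Finset.sum_congr rfl
  intro j _
  rw [h]
  push_cast
  rfl

theorem isHermitian_opMatrix {G : Type*} [Group G] [Fintype G] {l : ℕ}
    (B : Matrix (Fin l) (Fin l) (MonoidAlgebra ℤ G)) :
    (opMatrix (adjoint B * B)).IsHermitian := by
  rw [opMatrix_mul, opMatrix_adjoint]
  exact Matrix.isHermitian_conjTranspose_mul_self _

open Classical in
/-- `tr (log A_N* A_N) / [G : N]`, where `A_N` is the image of `A ∈ M_l(ℤG)` in `M_l(ℤ[G/N])`,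
for a normal subgroup `N` of finite index. -/
noncomputable def normalizedTrLog {G : Type*} [Group G] {l : ℕ}
    (A : Matrix (Fin l) (Fin l) (MonoidAlgebra ℤ G)) (N : Subgroup G) [N.Normal]
    [N.FiniteIndex] : ℝ :=
  letI : Fintype (G ⧸ N) := N.fintypeQuotientOfFiniteIndex
  trLog (isHermitian_opMatrix (quotientMatrix N A)) / (N.index : ℝ)

end Pool.Agent.H45.Lueck
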