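import Mathlib
import Pool.Agent.H45.LueckChar

/-!
# Bounds for the determinants on the two kinds of quotients
-/

namespace Pool.Agent.H45.Lueck

open Matrix Finset

theorem stdAddChar_pow_eq_one (m : ℕ) [NeZero m] (a : ZMod m) :
    (ZMod.stdAddChar a : ℂ) ^ m = 1 := by
  rw [← AddChar.map_nsmul_eq_pow, nsmul_eq_mul, CharP.cast_eq_zero, zero_mul,
    AddChar.map_zero_eq_one]

theorem norm_stdAddChar (m : ℕ) [NeZero m] (a : ZMod m) : ‖(ZMod.stdAddChar a : ℂ)‖ = 1 := by
  rw [ZMod.stdAddChar_apply]; exact Circle.norm_coe _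

theorem stdAddChar_one_primitive (m : ℕ) [NeZero m] :
    IsPrimitiveRoot (ZMod.stdAddChar (1 : ZMod m) : ℂ) m := by
  refine ⟨stdAddChar_pow_eq_one m 1, ?_⟩
  intro l hl
  rw [← AddChar.map_nsmul_eq_pow, nsmul_eq_mul, mul_one,
    ← AddChar.map_zero_eq_one (ZMod.stdAddChar (N := m)), ZMod.injective_stdAddChar.eq_iff] at hl
  exact (ZMod.natCast_eq_zero_iff l m).mp hl

/-- `∏ (x - ζ y) = x^m - y^m` -/
theorem prod_sub_stdAddChar (m : ℕ) [NeZero m] (x y : ℂ) :
    ∏ a : ZMod m, (x - ZMod.stdAddChar a * y) = x ^ m - y ^ m := by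
  classical
  rw [(stdAddChar_one_primitive m).pow_sub_pow_eq_prod_sub_mul x y (NeZero.pos m)]
  have himg : Polynomial.nthRootsFinset m (1 : ℂ) =
      Finset.univ.image (fun a : ZMod m => (ZMod.stdAddChar a : ℂ)) := by
    symm
    apply Finset.eq_of_subset_of_card_le
    · intro z hz
      rw [Finset.mem_image] at hz
      obtain ⟨a, _, rfl⟩ := hz
      rw [Polynomial.mem_nthRootsFinset (NeZero.pos m)]
      exact stdAddChar_pow_eq_one m a
    · rw [(stdAddChar_one_primitive m).card_nthRootsFinset,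
        Finset.card_image_of_injective _ ZMod.injective_stdAddChar, Finset.card_univ, ZMod.card]
  rw [himg, Finset.prod_image]
  intro a _ b _ h
  exact ZMod.injective_stdAddChar h

/-- for a unit `v`, the product over a whole period -/
theorem prod_unit (m : ℕ) [NeZero m] (η : ℂ) (v : ZMod m) (hv : IsUnit v) :
    ∏ a : ZMod m, (1 - η * ZMod.stdAddChar (-(a * v))) = 1 - η ^ m := by
  obtain ⟨w, rfl⟩ := hv
  have h := prod_sub_stdAddChar m 1 η
  rw [one_pow] at h
  rw [← h]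
  apply Fintype.prod_equiv ((Equiv.neg (ZMod m)).trans (w.mulRight))
  intro a
  simp [mul_comm]

theorem one_add_pow_le' (x : ℝ) (hx : 0 ≤ x) (m : ℕ) (hm : 1 ≤ m) : 1 + x ^ m ≤ (1 + x) ^ m := by
  induction m, hm using Nat.le_induction with
  | base => simp
  | succ m hm ih =>
    have h1 : 0 ≤ x ^ m := pow_nonneg hx m
    calc 1 + x ^ (m + 1) ≤ (1 + x ^ m) * (1 + x) := by rw [pow_succ]; nlinarith
      _ ≤ (1 + x) ^ m * (1 + x) := by apply mul_le_mul_of_nonneg_right ih; linarith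
      _ = (1 + x) ^ (m + 1) := by rw [pow_succ]

/-- each factor of the determinant is at most `(1 + 2c)^m` -/
theorem norm_factor_le (m s c : ℕ) [NeZero m] [NeZero s] (r : ZMod m → ZMod s) (η : ℂ)
    (hη : ‖η‖ = 1) (v : ZMod s) :
    ‖1 - (c : ℂ) ^ m * ∏ a : ZMod m, (1 - η * ZMod.stdAddChar (-(r a * v)))‖ ≤
      (1 + 2 * c : ℝ) ^ m := by
  have h1 : ‖∏ a : ZMod m, (1 - η * ZMod.stdAddChar (-(r a * v)))‖ ≤ 2 ^ m := by
    rw [norm_prod]
    calc ∏ a : ZMod m, ‖(1 - η * ZMod.stdAddChar (-(r a * v)) : ℂ)‖ ≤ ∏ a : ZMod m, (2 : ℝ) := by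
          apply Finset.prod_le_prod
          · intro a _; exact norm_nonneg _
          · intro a _
            calc ‖(1 - η * ZMod.stdAddChar (-(r a * v)) : ℂ)‖ ≤
                ‖(1 : ℂ)‖ + ‖η * ZMod.stdAddChar (-(r a * v))‖ := norm_sub_le _ _
              _ = 2 := by rw [norm_mul, hη, norm_stdAddChar]; norm_num
      _ = 2 ^ m := by rw [Finset.prod_const, Finset.card_univ, ZMod.card]
  calc ‖1 - (c : ℂ) ^ m * ∏ a : ZMod m, (1 - η * ZMod.stdAddChar (-(r a * v)))‖
      ≤ ‖(1 : ℂ)‖ + ‖(c : ℂ) ^ m * ∏ a : ZMod m, (1 - η * ZMod.stdAddChar (-(r a * v)))‖ :=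
        norm_sub_le _ _
    _ ≤ 1 + (c : ℝ) ^ m * 2 ^ m := by
        rw [norm_one, norm_mul, norm_pow, Complex.norm_natCast]
        gcongr
    _ = 1 + (2 * c : ℝ) ^ m := by rw [← mul_pow, mul_comm (c : ℝ) 2]
    _ ≤ (1 + 2 * c : ℝ) ^ m := one_add_pow_le' _ (by positivity) m (NeZero.pos m)

/-- the integer form of `heisMat` -/
def heisMatZ (m n s c : ℕ) (r : ZMod m → ZMod s) :
    Matrix (ZMod m × (ZMod n × ZMod s)) (ZMod m × (ZMod n × ZMod s)) ℤ :=
  Matrix.of fun p q =>
    (if p = q then 1 else 0) - (c : ℤ) * (if p = (q.1 + 1, q.2) then 1 else 0)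
      + (c : ℤ) * (if p = (q.1 + 1, q.2 + (1, r q.1)) then 1 else 0)

theorem heisMatZ_map (m n s c : ℕ) (r : ZMod m → ZMod s) :
    (heisMatZ m n s c r).map (Int.castRingHom ℂ) = heisMat m n s c r := by
  ext p q
  simp [heisMatZ, heisMat]

theorem heisMatZ_mod (m n s c : ℕ) (r : ZMod m → ZMod s) :
    (heisMatZ m n s c r).map (Int.castRingHom (ZMod c)) = 1 := by
  ext p q
  simp [heisMatZ, Matrix.one_apply]

theorem det_heisMatZ_ne_zero (m n s c : ℕ) [NeZero m] [NeZero n] [NeZero s]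
    (r : ZMod m → ZMod s) (hc : 2 ≤ c) :
    (heisMatZ m n s c r).det ≠ 0 := by
  intro h
  have h1 : Int.castRingHom (ZMod c) (heisMatZ m n s c r).det =
    ((heisMatZ m n s c r).map (Int.castRingHom (ZMod c))).det :=
    RingHom.map_det (Int.castRingHom (ZMod c)) _
  rw [heisMatZ_mod, Matrix.det_one, h, map_zero] at h1
  have : Fact (1 < c) := ⟨hc⟩
  exact zero_ne_one h1

theorem one_le_norm_det (m n s c : ℕ) [NeZero m] [NeZero n] [NeZero s]
    (r : ZMod m → ZMod s) (hc : 2 ≤ c) :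
    1 ≤ ‖(heisMat m n s c r).det‖ := by
  have h1 : ((heisMatZ m n s c r).det : ℂ) = (heisMat m n s c r).det := by
    rw [← heisMatZ_map]
    exact RingHom.map_det (Int.castRingHom ℂ) _
  rw [← h1, Complex.norm_intCast]
  have h2 := det_heisMatZ_ne_zero m n s c r hc
  exact_mod_cast Int.one_le_abs h2

/-- multiplication by `p` as a map `ZMod m' → ZMod (p * m')` -/
def mulP (p m' : ℕ) (v : ZMod m') : ZMod (p * m') := ((p * v.val : ℕ) : ZMod (p * m'))

theorem mulP_injective (p m' : ℕ) (hp : 0 < p) [NeZero m'] :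
    Function.Injective (mulP p m') := by
  intro v w h
  unfold mulP at h
  have : NeZero (p * m') := ⟨Nat.mul_ne_zero hp.ne' (NeZero.ne m')⟩
  have h1 := congrArg ZMod.val h
  rw [ZMod.val_cast_of_lt (Nat.mul_lt_mul_of_pos_left (ZMod.val_lt v) hp),
    ZMod.val_cast_of_lt (Nat.mul_lt_mul_of_pos_left (ZMod.val_lt w) hp)] at h1
  exact ZMod.val_injective m' (Nat.eq_of_mul_eq_mul_left hp h1)

/-- for `m = p^(j+1)`: non-units are exactly the multiples of `p` -/
theorem image_mulP (p j : ℕ) (hp : p.Prime) [NeZero (p ^ j)] [NeZero (p * p ^ j)]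
    (x : ZMod (p * p ^ j)) : (∃ v, mulP p (p ^ j) v = x) ↔ ¬ IsUnit x := by
  have hx : ((x.val : ℕ) : ZMod (p * p ^ j)) = x := ZMod.natCast_zmod_val x
  have hunit : IsUnit x ↔ ¬ p ∣ x.val := by
    have key : ∀ t : ℕ, Nat.Coprime t (p * p ^ j) ↔ ¬ p ∣ t := by
      intro t
      rw [← pow_succ', Nat.coprime_pow_right_iff (by omega), Nat.coprime_comm,
        hp.coprime_iff_not_dvd]
    conv_lhs => rw [← hx]
    rw [ZMod.isUnit_iff_coprime]
    exact key _
  rw [hunit, not_not]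
  constructor
  · rintro ⟨v, rfl⟩
    unfold mulP
    rw [ZMod.val_cast_of_lt (Nat.mul_lt_mul_of_pos_left (ZMod.val_lt v) hp.pos)]
    exact dvd_mul_right _ _
  · rintro ⟨k, hk⟩
    refine ⟨(k : ZMod (p ^ j)), ?_⟩
    unfold mulP
    have hk2 : k < p ^ j := by
      have := ZMod.val_lt x
      rw [hk] at this
      exact lt_of_mul_lt_mul_left this (Nat.zero_le p)
    rw [ZMod.val_cast_of_lt hk2, ← hk, hx]

theorem stdAddChar_mulP (p m' : ℕ) (hp : 0 < p) [NeZero m'] [NeZero (p * m')]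
    (a : ZMod (p * m')) (v : ZMod m') :
    (ZMod.stdAddChar (-(a * mulP p m' v)) : ℂ) =
      ZMod.stdAddChar (-((ZMod.castHom (dvd_mul_left m' p) (ZMod m')) a * v)) := by
  have ha : ((a.val : ℤ) : ZMod (p * m')) = a := by
    rw [Int.cast_natCast]; exact ZMod.natCast_zmod_val a
  have ha' : ((a.val : ℤ) : ZMod m') = (ZMod.castHom (dvd_mul_left m' p) (ZMod m')) a := by
    rw [← ha]; simp
  have hv : ((v.val : ℤ) : ZMod m') = v := by
    rw [Int.cast_natCast]; exact ZMod.natCast_zmod_val v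
  have h1 : -(a * mulP p m' v) = ((-(a.val * (p * v.val)) : ℤ) : ZMod (p * m')) := by
    unfold mulP
    push_cast
    rw [ZMod.natCast_zmod_val]
  have h2 : -((ZMod.castHom (dvd_mul_left m' p) (ZMod m')) a * v) =
      ((-(a.val * v.val) : ℤ) : ZMod m') := by
    push_cast
    rw [← ha']
    push_cast
    rw [ZMod.natCast_zmod_val]
  rw [h1, h2, ZMod.stdAddChar_coe, ZMod.stdAddChar_coe]
  congr 1
  have hp' : (p : ℂ) ≠ 0 := Nat.cast_ne_zero.mpr hp.ne'
  have hm' : (m' : ℂ) ≠ 0 := Nat.cast_ne_zero.mpr (NeZero.ne m')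
  push_cast
  field_simp

/-- splitting a product over `ZMod (p * p^j)` into units and multiples of `p` -/
theorem prod_split (p j : ℕ) (hp : p.Prime) [NeZero (p ^ j)] [NeZero (p * p ^ j)]
    (g : ZMod (p * p ^ j) → ℂ) :
    ∏ x, g x = (∏ x ∈ Finset.univ.filter (fun x => IsUnit x), g x) *
      ∏ v : ZMod (p ^ j), g (mulP p (p ^ j) v) := by
  classical
  rw [← Finset.prod_filter_mul_prod_filter_not Finset.univ (fun x => IsUnit x) g]
  congr 1
  have : Finset.univ.filter (fun x : ZMod (p * p ^ j) => ¬ IsUnit x) =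
      Finset.univ.image (mulP p (p ^ j)) := by
    ext x
    simp only [Finset.mem_filter, Finset.mem_univ, true_and, Finset.mem_image]
    exact (image_mulP p j hp x).symm
  rw [this, Finset.prod_image]
  intro a _ b _ h
  exact mulP_injective p (p ^ j) hp.pos h

theorem card_units_filter (p j : ℕ) (hp : p.Prime) [NeZero (p ^ j)] [NeZero (p * p ^ j)] :
    (Finset.univ.filter (fun x : ZMod (p * p ^ j) => IsUnit x)).card = (p - 1) * p ^ j := by
  classical
  have h1 := Finset.card_filter_add_card_filter_not (s := (Finset.univ : Finset (ZMod (p * p ^ j))))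
    (fun x => IsUnit x)
  have : Finset.univ.filter (fun x : ZMod (p * p ^ j) => ¬ IsUnit x) =
      Finset.univ.image (mulP p (p ^ j)) := by
    ext x
    simp only [Finset.mem_filter, Finset.mem_univ, true_and, Finset.mem_image]
    exact (image_mulP p j hp x).symm
  rw [this, Finset.card_image_of_injective _ (mulP_injective p (p ^ j) hp.pos),
    Finset.card_univ, Finset.card_univ, ZMod.card, ZMod.card] at h1
  rw [Nat.sub_mul, one_mul]
  omega

/-- upper bound on the quotients of the first kind, `m = n = s = p * p^j` -/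
theorem det_type1_le (p j c : ℕ) (hp : p.Prime) [NeZero (p ^ j)] [NeZero (p * p ^ j)] :
    ‖(heisMat (p * p ^ j) (p * p ^ j) (p * p ^ j) c id).det‖ ≤
      (1 + 2 * c : ℝ) ^ ((p * p ^ j) * ((p * p ^ j) * p ^ j)) := by
  classical
  set m := p * p ^ j with hm
  rw [det_heisMat, Fintype.prod_prod_type, norm_prod]
  have hu : ∀ u : ZMod m, ‖∏ v : ZMod m, (1 - (c : ℂ) ^ m * ∏ a : ZMod m,
      (1 - ZMod.stdAddChar (-u) * ZMod.stdAddChar (-(id a * v))))‖ ≤
      (1 + 2 * c : ℝ) ^ (m * p ^ j) := by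
    intro u
    rw [prod_split p j hp (fun v => (1 - (c : ℂ) ^ m * ∏ a : ZMod m,
      (1 - ZMod.stdAddChar (-u) * ZMod.stdAddChar (-(id a * v)))))]
    rw [Finset.prod_eq_one, one_mul, norm_prod]
    · calc ∏ v : ZMod (p ^ j), ‖(1 - (c : ℂ) ^ m * ∏ a : ZMod m,
          (1 - ZMod.stdAddChar (-u) * ZMod.stdAddChar (-(id a * mulP p (p ^ j) v))))‖
          ≤ ∏ v : ZMod (p ^ j), (1 + 2 * c : ℝ) ^ m := by
            apply Finset.prod_le_prod
            · intro v _; exact norm_nonneg _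
            · intro v _
              exact norm_factor_le m m c id _ (norm_stdAddChar m (-u)) _
        _ = (1 + 2 * c : ℝ) ^ (m * p ^ j) := by
            rw [Finset.prod_const, Finset.card_univ, ZMod.card, ← pow_mul]
    · intro v hv
      rw [Finset.mem_filter] at hv
      simp only [id]
      rw [prod_unit m _ v hv.2, stdAddChar_pow_eq_one]
      simp
  calc ∏ u : ZMod m, ‖∏ v : ZMod m, (1 - (c : ℂ) ^ m * ∏ a : ZMod m,
      (1 - ZMod.stdAddChar (-u) * ZMod.stdAddChar (-(id a * v))))‖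
      ≤ ∏ u : ZMod m, (1 + 2 * c : ℝ) ^ (m * p ^ j) := by
        apply Finset.prod_le_prod
        · intro v _; exact norm_nonneg _
        · intro u _; exact hu u
    _ = (1 + 2 * c : ℝ) ^ (m * (m * p ^ j)) := by
        rw [Finset.prod_const, Finset.card_univ, ZMod.card, ← pow_mul]
        congr 1
        ring

/-- product over the characters of `ZMod (p * m)` for a primitive central character -/
theorem prod_prim (p m : ℕ) [NeZero m] [NeZero (p * m)] (hp : 0 < p) (t : ℝ) (ht : 1 ≤ t) :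
    t ^ ((p - 1) * m) ≤
      ‖∏ u : ZMod (p * m), (1 - (t : ℂ) * (1 - (ZMod.stdAddChar (-u) : ℂ) ^ m))‖ := by
  classical
  have ht0 : (0 : ℝ) < t := by linarith
  have htC : (t : ℂ) ≠ 0 := by exact_mod_cast ht0.ne'
  obtain ⟨σ, hσ⟩ : ∃ σ : ℂ, σ ^ m = ((t : ℂ) - 1) / t :=
    IsAlgClosed.exists_pow_nat_eq _ (NeZero.pos m)
  have h1 : ∀ u : ZMod (p * m), (1 - (t : ℂ) * (1 - (ZMod.stdAddChar (-u) : ℂ) ^ m)) =
      t * ∏ b : ZMod m, (ZMod.stdAddChar (-u) - ZMod.stdAddChar b * σ) := by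
    intro u
    rw [prod_sub_stdAddChar, hσ]
    field_simp
    ring
  have h2 : ∏ u : ZMod (p * m), (1 - (t : ℂ) * (1 - (ZMod.stdAddChar (-u) : ℂ) ^ m)) =
      (t : ℂ) ^ (p * m) * ∏ b : ZMod m, ∏ u : ZMod (p * m),
        (ZMod.stdAddChar (-u) - ZMod.stdAddChar b * σ) := by
    simp_rw [h1]
    rw [Finset.prod_mul_distrib, Finset.prod_const, Finset.card_univ, ZMod.card,
      Finset.prod_comm]
  have h3 : ∀ b : ZMod m, ‖∏ u : ZMod (p * m),
      ((ZMod.stdAddChar (-u) : ℂ) - ZMod.stdAddChar b * σ)‖ = ‖((((t : ℂ) - 1) / t) ^ p - 1)‖ := by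
    intro b
    have h4 : ∏ u : ZMod (p * m), ((ZMod.stdAddChar b * σ : ℂ) - ZMod.stdAddChar u * 1) =
        (((t : ℂ) - 1) / t) ^ p - 1 := by
      rw [prod_sub_stdAddChar, one_pow, mul_pow, mul_comm p m, pow_mul, pow_mul σ,
        stdAddChar_pow_eq_one, hσ, one_pow, one_mul]
    rw [← h4, norm_prod, norm_prod]
    apply Fintype.prod_equiv (Equiv.neg (ZMod (p * m)))
    intro u
    rw [← norm_neg]
    congr 1
    simp
  rw [h2, norm_mul, norm_prod, Finset.prod_congr rfl (fun b _ => h3 b), Finset.prod_const,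
    Finset.card_univ, ZMod.card, norm_pow, Complex.norm_real, Real.norm_eq_abs, abs_of_pos ht0,
    pow_mul, pow_mul, ← mul_pow]
  apply pow_le_pow_left₀ (by positivity)
  have h5 : (((t : ℂ) - 1) / t) ^ p - 1 = ((((t - 1) / t) ^ p - 1 : ℝ) : ℂ) := by push_cast; rfl
  rw [h5, Complex.norm_real, Real.norm_eq_abs]
  have h6 : ((t - 1) / t) ^ p ≤ 1 := by
    apply pow_le_one₀
    · apply div_nonneg <;> linarith
    · rw [div_le_one ht0]; linarith
  rw [abs_of_nonpos (by linarith), div_pow]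
  have h7 : t ^ p * -((t - 1) ^ p / t ^ p - 1) = t ^ p - (t - 1) ^ p := by
    field_simp
    ring
  rw [h7]
  obtain ⟨q, rfl⟩ : ∃ q, p = q + 1 := ⟨p - 1, by omega⟩
  simp only [Nat.add_sub_cancel]
  have h8 : (t - 1) ^ q ≤ t ^ q := pow_le_pow_left₀ (by linarith) (by linarith) q
  have h9 : (t - 1) ^ (q + 1) ≤ (t - 1) * t ^ q := by
    rw [pow_succ, mul_comm]
    exact mul_le_mul_of_nonneg_left h8 (by linarith)
  have h10 : t ^ (q + 1) = t * t ^ q := by rw [pow_succ, mul_comm]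
  rw [h10]
  linarith

/-- lower bound on the quotients of the second kind, `m = s = p * p^j`, `n = p * m` -/
theorem det_type2_ge (p j c : ℕ) (hp : p.Prime) (hc : 2 ≤ c) [NeZero (p ^ j)]
    [NeZero (p * p ^ j)] [NeZero (p * (p * p ^ j))] :
    (c : ℝ) ^ ((p * p ^ j) * ((p - 1) * (p * p ^ j)) * ((p - 1) * p ^ j)) ≤
      ‖(heisMat (p * p ^ j) (p * (p * p ^ j)) (p * p ^ j) c id).det‖ := by
  classical
  set m := p * p ^ j with hm
  have hdet : (heisMat m (p * m) m c id).det =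
      (∏ u : ZMod (p * m), (1 - (((c : ℝ) ^ m : ℝ) : ℂ) * (1 - (ZMod.stdAddChar (-u) : ℂ) ^ m))) ^
        ((p - 1) * p ^ j) *
      (heisMat m (p * m) (p ^ j) c
        (fun a => (ZMod.castHom (dvd_mul_left (p ^ j) p) (ZMod (p ^ j))) a)).det := by
    rw [det_heisMat, det_heisMat, Fintype.prod_prod_type, Fintype.prod_prod_type]
    rw [← Finset.prod_pow, ← Finset.prod_mul_distrib]
    apply Finset.prod_congr rfl
    intro u _
    rw [prod_split p j hp]
    congr 1
    · rw [← card_units_filter p j hp, ← Finset.prod_const]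
      apply Finset.prod_congr rfl
      intro v hv
      rw [Finset.mem_filter] at hv
      simp only [id]
      rw [prod_unit m _ v hv.2]
      push_cast
      rfl
    · apply Finset.prod_congr rfl
      intro v _
      simp only [id]
      congr 2
      apply Finset.prod_congr rfl
      intro a _
      rw [stdAddChar_mulP p (p ^ j) hp.pos]
  rw [hdet, norm_mul, norm_pow]
  have h1 := one_le_norm_det m (p * m) (p ^ j) c
    (fun a => (ZMod.castHom (dvd_mul_left (p ^ j) p) (ZMod (p ^ j))) a) hc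
  have hc1 : (1 : ℝ) ≤ (c : ℝ) ^ m := by
    apply one_le_pow₀
    exact_mod_cast (by omega : 1 ≤ c)
  have h2 := prod_prim p m hp.pos ((c : ℝ) ^ m) hc1
  have h3 : (0 : ℝ) ≤ ((c : ℝ) ^ m) ^ ((p - 1) * m) := by positivity
  calc (c : ℝ) ^ (m * ((p - 1) * m) * ((p - 1) * p ^ j)) =
      (((c : ℝ) ^ m) ^ ((p - 1) * m)) ^ ((p - 1) * p ^ j) * 1 := by
        rw [mul_one, ← pow_mul, ← pow_mul, mul_assoc]
    _ ≤ _ := by
        apply mul_le_mul _ h1 zero_le_one (by positivity)
        exact pow_le_pow_left₀ h3 h2 _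

end Pool.Agent.H45.Lueck
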