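import Mathlib
import Pool.Agent.H45.LueckDefs
import Pool.Agent.H45.LueckNT

/-!
# The chain of subgroups in the Heisenberg group
-/

namespace Pool.Agent.H45.Lueck

open Matrix Finset Filter Topology

/-- the Heisenberg group over a commutative ring,
with `(a,b,z)(a',b',z') = (a+a', b+b', z+z'+b a')` -/
@[ext] structure Heis (R : Type*) where
  a : R
  b : R
  z : R

namespace Heis

variable {R : Type*} [CommRing R]

instance : Mul (Heis R) := ⟨fun g h => ⟨g.a + h.a, g.b + h.b, g.z + h.z + g.b * h.a⟩⟩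
instance : One (Heis R) := ⟨⟨0, 0, 0⟩⟩
instance : Inv (Heis R) := ⟨fun g => ⟨-g.a, -g.b, -g.z + g.b * g.a⟩⟩

@[simp] theorem mul_a (g h : Heis R) : (g * h).a = g.a + h.a := rfl
@[simp] theorem mul_b (g h : Heis R) : (g * h).b = g.b + h.b := rfl
@[simp] theorem mul_z (g h : Heis R) : (g * h).z = g.z + h.z + g.b * h.a := rfl
@[simp] theorem one_a : (1 : Heis R).a = 0 := rfl
@[simp] theorem one_b : (1 : Heis R).b = 0 := rfl
@[simp] theorem one_z : (1 : Heis R).z = 0 := rfl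
@[simp] theorem inv_a (g : Heis R) : (g⁻¹).a = -g.a := rfl
@[simp] theorem inv_b (g : Heis R) : (g⁻¹).b = -g.b := rfl
@[simp] theorem inv_z (g : Heis R) : (g⁻¹).z = -g.z + g.b * g.a := rfl

instance : Group (Heis R) := Group.ofLeftAxioms
  (by intro g h k; ext <;> simp <;> ring)
  (by intro g; ext <;> simp)
  (by intro g; ext <;> simp)

/-- generator `X` -/
def X : Heis ℤ := ⟨1, 0, 0⟩
/-- generator `Y` -/
def Y : Heis ℤ := ⟨0, 1, 0⟩

end Heis

section

variable {Γ : Type*} [Group Γ] (e : Γ ≃* Heis ℤ)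

/-- coordinates modulo `(m, n, m)` -/
def coord (m n : ℕ) (g : Γ) : ZMod m × (ZMod n × ZMod m) :=
  (((e g).a : ZMod m), (((e g).b : ZMod n), ((e g).z : ZMod m)))

/-- the subgroup `{m ∣ a, n ∣ b, m ∣ z}` -/
def sub (m n : ℕ) : Subgroup Γ where
  carrier := {g | (m : ℤ) ∣ (e g).a ∧ (n : ℤ) ∣ (e g).b ∧ (m : ℤ) ∣ (e g).z}
  one_mem' := by simp
  mul_mem' := by
    rintro g h ⟨h1, h2, h3⟩ ⟨h4, h5, h6⟩
    simp only [Set.mem_ofPred_eq, map_mul, Heis.mul_a, Heis.mul_b, Heis.mul_z]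
    exact ⟨dvd_add h1 h4, dvd_add h2 h5, dvd_add (dvd_add h3 h6) (h4.mul_left _)⟩
  inv_mem' := by
    rintro g ⟨h1, h2, h3⟩
    simp only [Set.mem_ofPred_eq, map_inv, Heis.inv_a, Heis.inv_b, Heis.inv_z]
    exact ⟨(dvd_neg).mpr h1, (dvd_neg).mpr h2, dvd_add ((dvd_neg).mpr h3) (h1.mul_left _)⟩

theorem mem_sub (m n : ℕ) (g : Γ) :
    g ∈ sub e m n ↔ (m : ℤ) ∣ (e g).a ∧ (n : ℤ) ∣ (e g).b ∧ (m : ℤ) ∣ (e g).z := Iff.rfl

theorem sub_normal (m n : ℕ) (hmn : m ∣ n) : (sub e m n).Normal := by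
  constructor
  intro h hh g
  rw [mem_sub] at hh ⊢
  obtain ⟨h1, h2, h3⟩ := hh
  simp only [map_mul, map_inv, Heis.mul_a, Heis.mul_b, Heis.mul_z, Heis.inv_a, Heis.inv_z]
  have h4 : (m : ℤ) ∣ (e h).b := (Int.natCast_dvd_natCast.mpr hmn).trans h2
  refine ⟨?_, ?_, ?_⟩
  · have : (e g).a + (e h).a + -(e g).a = (e h).a := by ring
    rw [this]; exact h1
  · have : (e g).b + (e h).b + (-(e g).b) = (e h).b := by ring
    simpa [this] using h2
  · have : (e g).z + (e h).z + (e g).b * (e h).a + (-(e g).z + (e g).b * (e g).a) +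
        ((e g).b + (e h).b) * -(e g).a = (e h).z + (e g).b * (e h).a - (e h).b * (e g).a := by ring
    rw [this]
    exact dvd_sub (dvd_add h3 (h1.mul_left _)) (h4.mul_right _)

theorem coord_eq_iff (m n : ℕ) (g h : Γ) :
    coord e m n g = coord e m n h ↔ g⁻¹ * h ∈ sub e m n := by
  rw [mem_sub]
  simp only [coord, Prod.mk.injEq, map_mul, map_inv, Heis.mul_a, Heis.mul_b, Heis.mul_z,
    Heis.inv_a, Heis.inv_b, Heis.inv_z, ZMod.intCast_eq_intCast_iff_dvd_sub]
  have e1 : -(e g).a + (e h).a = (e h).a - (e g).a := by ring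
  have e2 : -(e g).b + (e h).b = (e h).b - (e g).b := by ring
  have e3 : -(e g).z + (e g).b * (e g).a + (e h).z + -(e g).b * (e h).a =
    ((e h).z - (e g).z) - (e g).b * ((e h).a - (e g).a) := by ring
  rw [e1, e2, e3]
  constructor
  · rintro ⟨h1, h2, h3⟩
    exact ⟨h1, h2, dvd_sub h3 (h1.mul_left _)⟩
  · rintro ⟨h1, h2, h3⟩
    refine ⟨h1, h2, ?_⟩
    have := dvd_add h3 (h1.mul_left (e g).b)
    rwa [sub_add_cancel] at this

theorem coord_surjective (m n : ℕ) [NeZero m] [NeZero n] :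
    Function.Surjective (coord e m n) := by
  rintro ⟨a, b, z⟩
  refine ⟨e.symm ⟨(a.val : ℤ), (b.val : ℤ), (z.val : ℤ)⟩, ?_⟩
  simp [coord]

/-- the quotient in coordinates -/
noncomputable def quotEquiv (m n : ℕ) [NeZero m] [NeZero n] :
    (Γ ⧸ sub e m n) ≃ ZMod m × (ZMod n × ZMod m) :=
  Equiv.ofBijective (Quotient.lift (coord e m n)
    (fun g h hgh => (coord_eq_iff e m n g h).mpr (QuotientGroup.leftRel_apply.mp hgh))) <| by
    constructor
    · intro x y
      induction x using QuotientGroup.induction_on with | _ g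
      induction y using QuotientGroup.induction_on with | _ h
      intro hxy
      exact QuotientGroup.eq.mpr ((coord_eq_iff e m n g h).mp hxy)
    · intro p
      obtain ⟨g, hg⟩ := coord_surjective e m n p
      exact ⟨(g : Γ ⧸ sub e m n), hg⟩

theorem quotEquiv_mk (m n : ℕ) [NeZero m] [NeZero n] (g : Γ) :
    quotEquiv e m n (g : Γ ⧸ sub e m n) = coord e m n g := rfl

theorem sub_finiteIndex (m n : ℕ) [NeZero m] [NeZero n] : (sub e m n).FiniteIndex := by
  have : Finite (Γ ⧸ sub e m n) := Finite.of_equiv _ (quotEquiv e m n).symm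
  exact Subgroup.finiteIndex_of_finite_quotient

theorem sub_index (m n : ℕ) [NeZero m] [NeZero n] : (sub e m n).index = m * (n * m) := by
  rw [Subgroup.index, Nat.card_congr (quotEquiv e m n)]
  simp

theorem sub_one_one : sub e 1 1 = ⊤ := by
  ext g; simp [mem_sub]

/-- the group ring element `1 - c X + c X Y` as a `1 × 1` matrix -/
noncomputable def theA (c : ℕ) : Matrix (Fin 1) (Fin 1) (MonoidAlgebra ℤ Γ) :=
  Matrix.of fun _ _ => 1 - MonoidAlgebra.single (e.symm Heis.X) (c : ℤ)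
    + MonoidAlgebra.single (e.symm Heis.X * e.symm Heis.Y) (c : ℤ)

theorem coord_X_mul (m n : ℕ) (g : Γ) :
    coord e m n (e.symm Heis.X * g) = ((coord e m n g).1 + 1, (coord e m n g).2) := by
  simp [coord, Heis.X, add_comm]

theorem coord_XY_mul (m n : ℕ) (g : Γ) :
    coord e m n (e.symm Heis.X * e.symm Heis.Y * g) =
      ((coord e m n g).1 + 1, (coord e m n g).2 + (1, (coord e m n g).1)) := by
  simp [coord, Heis.X, Heis.Y, add_comm]

theorem opMatrix_theA (m n c : ℕ) [NeZero m] [NeZero n] [(sub e m n).Normal] :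
    (opMatrix (quotientMatrix (sub e m n) (theA e c))) =
      (heisMat m n m c id).submatrix (fun p => quotEquiv e m n p.2)
        (fun p => quotEquiv e m n p.2) := by
  classical
  ext ⟨i, p⟩ ⟨j, q⟩
  induction p using QuotientGroup.induction_on with | _ g
  induction q using QuotientGroup.induction_on with | _ h
  have hq : quotientMatrix (sub e m n) (theA e c) i j =
      1 - MonoidAlgebra.single ((e.symm Heis.X : Γ) : Γ ⧸ sub e m n) (c : ℤ)
        + MonoidAlgebra.single ((e.symm Heis.X * e.symm Heis.Y : Γ) : Γ ⧸ sub e m n) (c : ℤ) := by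
    simp only [quotientMatrix, theA, Matrix.map_apply, Matrix.of_apply, map_add, map_sub, map_one,
      MonoidAlgebra.mapDomainRingHom_apply, MonoidAlgebra.mapDomain_single]
    rfl
  simp only [opMatrix, Matrix.of_apply, hq, Matrix.submatrix_apply, heisMat, id]
  have key : ∀ x : Γ, ((x : Γ ⧸ sub e m n) = (g : Γ ⧸ sub e m n) * (h : Γ ⧸ sub e m n)⁻¹) ↔
      coord e m n g = coord e m n (x * h) := by
    intro x
    rw [eq_mul_inv_iff_mul_eq, ← QuotientGroup.mk_mul, ← (quotEquiv e m n).injective.eq_iff,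
      quotEquiv_mk, quotEquiv_mk, eq_comm]
  have key1 := key 1
  have key2 := key (e.symm Heis.X)
  have key3 := key (e.symm Heis.X * e.symm Heis.Y)
  rw [coord_X_mul] at key2
  rw [coord_XY_mul] at key3
  rw [one_mul] at key1
  have h1 : ((1 : Γ) : Γ ⧸ sub e m n) = 1 := rfl
  rw [h1] at key1
  rw [MonoidAlgebra.coeff_add, MonoidAlgebra.coeff_sub]
  simp only [Finsupp.add_apply, Finsupp.sub_apply, MonoidAlgebra.one_def,
    MonoidAlgebra.coeff_single, Finsupp.single_apply, key1, key2, key3]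
  have eg : quotEquiv e m n (g : Γ ⧸ sub e m n) = coord e m n g := rfl
  have eh : quotEquiv e m n (h : Γ ⧸ sub e m n) = coord e m n h := rfl
  rw [eg, eh]
  push_cast
  simp only [mul_ite, mul_one, mul_zero]

theorem det_opMatrix_theA (m n c : ℕ) [NeZero m] [NeZero n] [(sub e m n).Normal]
    [Fintype (Γ ⧸ sub e m n)] [DecidableEq (Γ ⧸ sub e m n)] :
    (opMatrix (quotientMatrix (sub e m n) (theA e c))).det = (heisMat m n m c id).det := by
  rw [opMatrix_theA]
  exact Matrix.det_submatrix_equiv_self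
    ((Equiv.uniqueProd (Γ ⧸ sub e m n) (Fin 1)).trans (quotEquiv e m n)) _

theorem trLog_of_det_ne_zero {ι : Type*} [Fintype ι] [DecidableEq ι] {T : Matrix ι ι ℂ}
    (hT : T.IsHermitian) (M : Matrix ι ι ℂ) (hM : T = Mᴴ * M) (hdet : M.det ≠ 0) :
    trLog hT = 2 * Real.log ‖M.det‖ := by
  have h1 : T.det = ((‖M.det‖ ^ 2 : ℝ) : ℂ) := by
    rw [hM, Matrix.det_mul, Matrix.det_conjTranspose, RCLike.star_def, Complex.conj_mul']
    push_cast; rfl
  have h2 : ∏ i, hT.eigenvalues i = ‖M.det‖ ^ 2 := by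
    have := hT.det_eq_prod_eigenvalues
    rw [h1] at this
    have h3 : ((∏ i, hT.eigenvalues i : ℝ) : ℂ) = ((‖M.det‖ ^ 2 : ℝ) : ℂ) := by
      rw [this]; push_cast; rfl
    exact_mod_cast h3
  have h3 : ∀ i, hT.eigenvalues i ≠ 0 := by
    intro i hi
    have : ∏ i, hT.eigenvalues i = 0 := Finset.prod_eq_zero (Finset.mem_univ i) hi
    rw [h2] at this
    exact hdet (norm_eq_zero.mp (pow_eq_zero_iff (two_ne_zero) |>.mp this))
  unfold trLog
  rw [Finset.filter_true_of_mem (fun i _ => h3 i), ← Real.log_prod (fun i _ => h3 i), h2,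
    Real.log_pow]
  push_cast
  rfl

theorem normalizedTrLog_theA (m n c : ℕ) (hc : 2 ≤ c) [NeZero m] [NeZero n]
    [(sub e m n).Normal] [(sub e m n).FiniteIndex] :
    normalizedTrLog (theA e c) (sub e m n) =
      2 * Real.log ‖(heisMat m n m c id).det‖ / ((m * (n * m) : ℕ) : ℝ) := by
  classical
  unfold normalizedTrLog
  have hne : (heisMat m n m c id).det ≠ 0 := by
    have := one_le_norm_det m n m c id hc
    intro h
    rw [h, norm_zero] at this
    linarith
  let : Fintype (Γ ⧸ sub e m n) := (sub e m n).fintypeQuotientOfFiniteIndex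
  have hd := det_opMatrix_theA e m n c
  rw [trLog_of_det_ne_zero _ (opMatrix (quotientMatrix (sub e m n) (theA e c)))
    (by rw [opMatrix_mul, opMatrix_adjoint]) (by
      convert hne), sub_index]
  congr 3
  convert congrArg norm hd

/-- the chain -/
def chain (k : ℕ) : Subgroup Γ := sub e (5 ^ (k / 2)) (5 ^ ((k + 1) / 2))

theorem chain_normal (k : ℕ) : (chain e k).Normal :=
  sub_normal e _ _ (pow_dvd_pow 5 (by omega))

instance neZero5 (k : ℕ) : NeZero (5 ^ k) := ⟨by positivity⟩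

theorem chain_finiteIndex (k : ℕ) : (chain e k).FiniteIndex :=
  sub_finiteIndex e _ _

theorem chain_index (k : ℕ) :
    (chain e k).index = 5 ^ (k / 2) * (5 ^ ((k + 1) / 2) * 5 ^ (k / 2)) :=
  sub_index e _ _

theorem chain_zero : chain e 0 = ⊤ := by
  unfold chain
  exact sub_one_one e

theorem chain_strictAnti : StrictAnti (chain e) := by
  apply strictAnti_nat_of_succ_lt
  intro k
  apply lt_of_le_of_ne
  · intro g hg
    unfold chain at hg ⊢
    rw [mem_sub] at hg ⊢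
    obtain ⟨h1, h2, h3⟩ := hg
    have d1 : ((5 ^ (k / 2) : ℕ) : ℤ) ∣ ((5 ^ ((k + 1) / 2) : ℕ) : ℤ) :=
      Int.natCast_dvd_natCast.mpr (pow_dvd_pow 5 (by omega))
    have d2 : ((5 ^ ((k + 1) / 2) : ℕ) : ℤ) ∣ ((5 ^ ((k + 1 + 1) / 2) : ℕ) : ℤ) :=
      Int.natCast_dvd_natCast.mpr (pow_dvd_pow 5 (by omega))
    exact ⟨d1.trans h1, d2.trans h2, d1.trans h3⟩
  · intro h
    have h2 := congrArg Subgroup.index h
    rw [chain_index, chain_index, ← pow_add, ← pow_add, ← pow_add, ← pow_add] at h2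
    have := Nat.pow_right_injective (le_refl 2 |>.trans (by norm_num : 2 ≤ 5)) h2
    omega

theorem int_eq_zero_of_pow_dvd (x : ℤ) (h : ∀ k : ℕ, ((5 ^ k : ℕ) : ℤ) ∣ x) : x = 0 := by
  by_contra hx
  have h1 := Int.natAbs_dvd_natAbs.mpr (h x.natAbs)
  rw [Int.natAbs_natCast] at h1
  have h2 := Nat.le_of_dvd (Int.natAbs_pos.mpr hx) h1
  have h3 : x.natAbs < 5 ^ x.natAbs := Nat.lt_pow_self (by norm_num)
  omega

theorem chain_iInf : ⨅ k, chain e k = ⊥ := by
  rw [eq_bot_iff]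
  intro g hg
  rw [Subgroup.mem_iInf] at hg
  have h1 : ∀ k : ℕ, ((5 ^ k : ℕ) : ℤ) ∣ (e g).a ∧ ((5 ^ k : ℕ) : ℤ) ∣ (e g).b ∧
      ((5 ^ k : ℕ) : ℤ) ∣ (e g).z := by
    intro k
    have := hg (2 * k)
    unfold chain at this
    rw [mem_sub] at this
    have e1 : 2 * k / 2 = k := by omega
    have e2 : (2 * k + 1) / 2 = k := by omega
    rw [e1, e2] at this
    exact this
  have ha := int_eq_zero_of_pow_dvd _ (fun k => (h1 k).1)
  have hb := int_eq_zero_of_pow_dvd _ (fun k => (h1 k).2.1)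
  have hz := int_eq_zero_of_pow_dvd _ (fun k => (h1 k).2.2)
  rw [Subgroup.mem_bot]
  apply e.injective
  rw [map_one]
  ext
  · exact ha
  · exact hb
  · exact hz

theorem even_bound (j : ℕ) [(chain e (2 * j + 2)).Normal] [(chain e (2 * j + 2)).FiniteIndex] :
    normalizedTrLog (theA e 2) (chain e (2 * j + 2)) ≤ 2 / 5 * Real.log 5 := by
  have e1 : (2 * j + 2) / 2 = j + 1 := by omega
  have e2 : (2 * j + 2 + 1) / 2 = j + 1 := by omega
  have hch : chain e (2 * j + 2) = sub e (5 * 5 ^ j) (5 * 5 ^ j) := by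
    unfold chain; rw [e1, e2, pow_succ, mul_comm]
  have hN : NeZero (5 * 5 ^ j) := ⟨by positivity⟩
  have gen : ∀ (N : Subgroup Γ) [N.Normal] [N.FiniteIndex], N = sub e (5 * 5 ^ j) (5 * 5 ^ j) →
      normalizedTrLog (theA e 2) N ≤ 2 / 5 * Real.log 5 := by
    intro N _ _ hN'
    subst hN'
    rw [normalizedTrLog_theA e _ _ 2 le_rfl]
    have h1 := det_type1_le 5 j 2 (by norm_num)
    have h0 : 0 < ‖(heisMat (5 * 5 ^ j) (5 * 5 ^ j) (5 * 5 ^ j) 2 id).det‖ :=
      lt_of_lt_of_le one_pos (one_le_norm_det _ _ _ 2 id le_rfl)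
    have h2 := Real.log_le_log h0 h1
    rw [Real.log_pow] at h2
    have h3 : (1 + 2 * ((2 : ℕ) : ℝ)) = 5 := by norm_num
    rw [h3] at h2
    have h4 : (0 : ℝ) < ((5 * 5 ^ j * (5 * 5 ^ j * (5 * 5 ^ j)) : ℕ) : ℝ) := by positivity
    rw [div_le_iff₀ h4]
    calc 2 * Real.log ‖(heisMat (5 * 5 ^ j) (5 * 5 ^ j) (5 * 5 ^ j) 2 id).det‖
        ≤ 2 * (((5 * 5 ^ j * (5 * 5 ^ j * 5 ^ j) : ℕ) : ℝ) * Real.log 5) := by linarith
      _ = 2 / 5 * Real.log 5 * ((5 * 5 ^ j * (5 * 5 ^ j * (5 * 5 ^ j)) : ℕ) : ℝ) := by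
          push_cast; ring
  exact gen _ hch

theorem odd_bound (j : ℕ) [(chain e (2 * j + 3)).Normal] [(chain e (2 * j + 3)).FiniteIndex] :
    32 / 25 * Real.log 2 ≤ normalizedTrLog (theA e 2) (chain e (2 * j + 3)) := by
  have e1 : (2 * j + 3) / 2 = j + 1 := by omega
  have e2 : (2 * j + 3 + 1) / 2 = j + 2 := by omega
  have hch : chain e (2 * j + 3) = sub e (5 * 5 ^ j) (5 * (5 * 5 ^ j)) := by
    unfold chain
    rw [e1, e2]
    congr 1
    · ring
    · ring
  have hN : NeZero (5 * 5 ^ j) := ⟨by positivity⟩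
  have hN2 : NeZero (5 * (5 * 5 ^ j)) := ⟨by positivity⟩
  have gen : ∀ (N : Subgroup Γ) [N.Normal] [N.FiniteIndex],
      N = sub e (5 * 5 ^ j) (5 * (5 * 5 ^ j)) →
      32 / 25 * Real.log 2 ≤ normalizedTrLog (theA e 2) N := by
    intro N _ _ hN'
    subst hN'
    rw [normalizedTrLog_theA e _ _ 2 le_rfl]
    have h1 := det_type2_ge 5 j 2 (by norm_num) le_rfl
    have h0 : (0 : ℝ) < ((2 : ℕ) : ℝ) ^
      ((5 * 5 ^ j) * ((5 - 1) * (5 * 5 ^ j)) * ((5 - 1) * 5 ^ j)) := by positivity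
    have h2 := Real.log_le_log h0 h1
    rw [Real.log_pow] at h2
    have h4 : (0 : ℝ) < ((5 * 5 ^ j * (5 * (5 * 5 ^ j) * (5 * 5 ^ j)) : ℕ) : ℝ) := by positivity
    rw [le_div_iff₀ h4]
    calc 32 / 25 * Real.log 2 * ((5 * 5 ^ j * (5 * (5 * 5 ^ j) * (5 * 5 ^ j)) : ℕ) : ℝ)
        = 2 * (((5 * 5 ^ j) * ((5 - 1) * (5 * 5 ^ j)) * ((5 - 1) * 5 ^ j) : ℕ) *
            Real.log ((2 : ℕ) : ℝ)) := by
          push_cast; ring
      _ ≤ _ := by linarith
  exact gen _ hch

theorem bounds_lt : 2 / 5 * Real.log 5 < 32 / 25 * Real.log 2 := by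
  have h1 : Real.log ((5 : ℝ) ^ 5) < Real.log ((2 : ℝ) ^ 16) :=
    Real.log_lt_log (by norm_num) (by norm_num)
  rw [Real.log_pow, Real.log_pow] at h1
  push_cast at h1
  linarith

include e in
/-- The group-level statement: for every group isomorphic to the integral Heisenberg group -/
theorem group_level : ∃ (N : ℕ → Subgroup Γ) (_ : ∀ k, (N k).Normal)
    (_ : ∀ k, (N k).FiniteIndex) (A : Matrix (Fin 1) (Fin 1) (MonoidAlgebra ℤ Γ)),
    N 0 = ⊤ ∧ StrictAnti N ∧ ⨅ k, N k = ⊥ ∧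
    ¬ ∃ L : EReal, Tendsto (fun k => ((normalizedTrLog A (N k) : ℝ) : EReal)) atTop (𝓝 L) := by
  refine ⟨chain e, chain_normal e, chain_finiteIndex e, theA e 2, chain_zero e,
    chain_strictAnti e, chain_iInf e, ?_⟩
  rintro ⟨L, hL⟩
  have t1 : Tendsto (fun j : ℕ => 2 * j + 2) atTop atTop :=
    tendsto_atTop_mono (fun j => (by omega : j ≤ 2 * j + 2)) tendsto_id
  have t2 : Tendsto (fun j : ℕ => 2 * j + 3) atTop atTop :=
    tendsto_atTop_mono (fun j => (by omega : j ≤ 2 * j + 3)) tendsto_id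
  have h1 : L ≤ ((2 / 5 * Real.log 5 : ℝ) : EReal) := by
    apply le_of_tendsto (hL.comp t1)
    filter_upwards with j
    have := chain_normal e (2 * j + 2)
    have := chain_finiteIndex e (2 * j + 2)
    exact EReal.coe_le_coe_iff.mpr (even_bound e j)
  have h2 : ((32 / 25 * Real.log 2 : ℝ) : EReal) ≤ L := by
    apply ge_of_tendsto (hL.comp t2)
    filter_upwards with j
    have := chain_normal e (2 * j + 3)
    have := chain_finiteIndex e (2 * j + 3)
    exact EReal.coe_le_coe_iff.mpr (odd_bound e j)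
  have h3 := h2.trans h1
  rw [EReal.coe_le_coe_iff] at h3
  exact absurd bounds_lt (not_lt.mpr h3)

end

end Pool.Agent.H45.Lueck
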