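import Mathlib
import Pool.Agent.H45.LueckGroup

/-!
# The closed Heisenberg nilmanifold and its fundamental group
-/

namespace Pool.Agent.H45.Lueck

open Set Filter Topology
open scoped Manifold ContDiff

/-- three-dimensional Euclidean space -/
abbrev E3 := EuclideanSpace ℝ (Fin 3)

namespace Nil

/-- left multiplication by an integral Heisenberg matrix, on `ℝ³` -/
noncomputable def act (g : Heis ℤ) (x : E3) : E3 :=
  !₂[(g.a : ℝ) + x 0, (g.b : ℝ) + x 1, (g.z : ℝ) + x 2 + (g.b : ℝ) * x 0]

@[simp] theorem act_zero (g : Heis ℤ) (x : E3) : (act g x) 0 = (g.a : ℝ) + x 0 := rfl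
@[simp] theorem act_one (g : Heis ℤ) (x : E3) : (act g x) 1 = (g.b : ℝ) + x 1 := rfl
@[simp] theorem act_two (g : Heis ℤ) (x : E3) :
    (act g x) 2 = (g.z : ℝ) + x 2 + (g.b : ℝ) * x 0 := rfl

theorem ext3 {x y : E3} (h0 : x 0 = y 0) (h1 : x 1 = y 1) (h2 : x 2 = y 2) : x = y := by
  ext i
  fin_cases i
  · exact h0
  · exact h1
  · exact h2

noncomputable instance : MulAction (Heis ℤ) E3 where
  smul := act
  one_smul x := by
    change act 1 x = x
    apply ext3 <;> simp
  mul_smul g h x := by
    change act (g * h) x = act g (act h x)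
    apply ext3
    · simp; ring
    · simp; ring
    · simp; ring

theorem smul_def (g : Heis ℤ) (x : E3) : g • x = act g x := rfl

theorem contDiff_act (g : Heis ℤ) {n : ℕ∞ω} : ContDiff ℝ n (act g) := by
  rw [contDiff_euclidean]
  have hc : ∀ j : Fin 3, ContDiff ℝ n (fun x : E3 => x j) := fun j =>
    (EuclideanSpace.proj (𝕜 := ℝ) j).contDiff
  intro i
  fin_cases i
  · exact contDiff_const.add (hc 0)
  · exact contDiff_const.add (hc 1)
  · exact (contDiff_const.add (hc 2)).add (contDiff_const.mul (hc 0))

instance : ContinuousConstSMul (Heis ℤ) E3 :=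
  ⟨fun g => (contDiff_act g (n := 0)).continuous⟩

instance : IsCancelSMul (Heis ℤ) E3 where
  left_cancel' g x y h := by
    have h2 := congrArg (fun z => g⁻¹ • z) h
    simpa using h2
  right_cancel' g h x hgh := by
    rw [smul_def, smul_def] at hgh
    have h0 := congrArg (fun y : E3 => y 0) hgh
    have h1 := congrArg (fun y : E3 => y 1) hgh
    have h2 := congrArg (fun y : E3 => y 2) hgh
    simp only [act_zero, act_one, act_two] at h0 h1 h2
    have a1 : (g.a : ℝ) = h.a := by linarith
    have b1 : (g.b : ℝ) = h.b := by linarith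
    rw [b1] at h2
    have z1 : (g.z : ℝ) = h.z := by linarith
    ext
    · exact_mod_cast a1
    · exact_mod_cast b1
    · exact_mod_cast z1

theorem abs_coord_le (x : E3) (i : Fin 3) : |x i| ≤ ‖x‖ := by
  have := EuclideanSpace.norm_eq x
  rw [this, ← Real.sqrt_sq_eq_abs]
  apply Real.sqrt_le_sqrt
  have h2 : x i ^ 2 = ‖x i‖ ^ 2 := by rw [Real.norm_eq_abs, sq_abs]
  rw [h2]
  exact Finset.single_le_sum (f := fun j => ‖x j‖ ^ 2) (fun j _ => by positivity)
    (Finset.mem_univ i)

instance : ProperlyDiscontinuousSMul (Heis ℤ) E3 where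
  finite_disjoint_inter_image := by
    intro K L hK hL
    obtain ⟨R, hR⟩ := (hK.union hL).isBounded.exists_norm_le
    have hinj : Function.Injective (fun g : Heis ℤ => ((g.a, g.b, g.z) : ℤ × ℤ × ℤ)) := by
      intro g h hgh
      simp only [Prod.mk.injEq] at hgh
      exact Heis.ext hgh.1 hgh.2.1 hgh.2.2
    set N : ℤ := ⌈2 * R + 2 * R * R⌉ with hN
    have hfin : (Set.Icc (-N) N ×ˢ (Set.Icc (-N) N ×ˢ Set.Icc (-N) N)).Finite :=
      (Set.finite_Icc _ _).prod ((Set.finite_Icc _ _).prod (Set.finite_Icc _ _))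
    apply (hfin.preimage hinj.injOn).subset
    rintro g ⟨y, ⟨x, hx, rfl⟩, hy⟩
    have hx1 := hR x (Or.inl hx)
    have hy1 := hR _ (Or.inr hy)
    simp only [smul_def] at hy1
    have hR0 : 0 ≤ R := (norm_nonneg x).trans hx1
    have x0 := abs_le.mp ((abs_coord_le x 0).trans hx1)
    have x1 := abs_le.mp ((abs_coord_le x 1).trans hx1)
    have x2 := abs_le.mp ((abs_coord_le x 2).trans hx1)
    have y0 := abs_le.mp ((abs_coord_le _ 0).trans hy1)
    have y1 := abs_le.mp ((abs_coord_le _ 1).trans hy1)
    have y2 := abs_le.mp ((abs_coord_le _ 2).trans hy1)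
    simp only [act_zero, act_one, act_two] at y0 y1 y2
    have hRR : 0 ≤ R * R := mul_nonneg hR0 hR0
    have hceil : 2 * R + 2 * R * R ≤ N := Int.le_ceil _
    have hb : |(g.b : ℝ)| ≤ 2 * R := by rw [abs_le]; constructor <;> linarith
    have hbx : |(g.b : ℝ) * x 0| ≤ 2 * R * R := by
      rw [abs_mul]
      exact mul_le_mul hb ((abs_coord_le x 0).trans hx1) (abs_nonneg _) (by linarith)
    have hbx' := abs_le.mp hbx
    have hb' := abs_le.mp hb
    simp only [Set.mem_preimage, Set.mem_prod, Set.mem_Icc]
    refine ⟨⟨?_, ?_⟩, ⟨?_, ?_⟩, ⟨?_, ?_⟩⟩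
    · have : (-N : ℝ) ≤ g.a := by linarith
      exact_mod_cast this
    · have : (g.a : ℝ) ≤ N := by linarith
      exact_mod_cast this
    · have : (-N : ℝ) ≤ g.b := by linarith
      exact_mod_cast this
    · have : (g.b : ℝ) ≤ N := by linarith
      exact_mod_cast this
    · have : (-N : ℝ) ≤ g.z := by linarith
      exact_mod_cast this
    · have : (g.z : ℝ) ≤ N := by linarith
      exact_mod_cast this

end Nil

/-- the quotient of `ℝ³ = Heis(ℝ)` by the left action of `Heis(ℤ)` -/
abbrev NilM : Type := MulAction.orbitRel.Quotient (Heis ℤ) E3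

namespace NilM

/-- the projection -/
noncomputable def proj : E3 → NilM := Quotient.mk (MulAction.orbitRel (Heis ℤ) E3)

theorem proj_covering : IsQuotientCoveringMap proj (Heis ℤ) :=
  isQuotientCoveringMap_quotientMk_of_properlyDiscontinuousSMul

theorem proj_surjective : Function.Surjective proj := Quotient.mk_surjective

theorem proj_localHomeo : IsLocalHomeomorph proj := proj_covering.isCoveringMap.isLocalHomeomorph

noncomputable instance : ChartedSpace E3 NilM := proj_localHomeo.chartedSpace proj_surjective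

instance : T2Space NilM := t2Space_of_properlyDiscontinuousSMul_of_t2Space

instance : ConnectedSpace NilM := proj_surjective.connectedSpace proj_covering.continuous

instance : CompactSpace NilM := by
  have hK : IsCompact (Metric.closedBall (0 : E3) 3) := isCompact_closedBall _ _
  have himg : proj '' (Metric.closedBall (0 : E3) 3) = Set.univ := by
    apply Set.eq_univ_of_forall
    intro q
    obtain ⟨x, rfl⟩ := proj_surjective q
    set a : ℤ := -⌊x 0⌋
    set b : ℤ := -⌊x 1⌋
    set z : ℤ := -⌊x 2 + (b : ℝ) * x 0⌋ with hz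
    refine ⟨(⟨a, b, z⟩ : Heis ℤ) • x, ?_, ?_⟩
    · rw [mem_closedBall_zero_iff, Nil.smul_def, EuclideanSpace.norm_eq, Fin.sum_univ_three]
      simp only [Nil.act_zero, Nil.act_one, Nil.act_two]
      have h0 : (a : ℝ) + x 0 = Int.fract (x 0) := by
        simp only [a, Int.fract]; push_cast; ring
      have h1 : (b : ℝ) + x 1 = Int.fract (x 1) := by
        simp only [b, Int.fract]; push_cast; ring
      have h2 : (z : ℝ) + x 2 + (b : ℝ) * x 0 = Int.fract (x 2 + (b : ℝ) * x 0) := by
        simp only [hz, Int.fract]; push_cast; ring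
      rw [h0, h1, h2]
      have f0 := Int.fract_nonneg (x 0)
      have f0' := (Int.fract_lt_one (x 0)).le
      have f1 := Int.fract_nonneg (x 1)
      have f1' := (Int.fract_lt_one (x 1)).le
      have f2 := Int.fract_nonneg (x 2 + (b : ℝ) * x 0)
      have f2' := (Int.fract_lt_one (x 2 + (b : ℝ) * x 0)).le
      rw [Real.norm_of_nonneg f0, Real.norm_of_nonneg f1, Real.norm_of_nonneg f2]
      rw [Real.sqrt_le_left (by norm_num)]
      nlinarith
    · exact proj_covering.map_smul _
  have := hK.image proj_covering.continuous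
  rw [himg] at this
  exact ⟨this⟩

/-- a map which is locally a lift of the identity is smooth -/
theorem contDiffOn_lift {n : ℕ∞ω} (τ : E3 → E3) (U : Set E3) (hU : IsOpen U)
    (hτ : ContinuousOn τ U) (hp : ∀ y ∈ U, proj (τ y) = proj y) : ContDiffOn ℝ n τ U := by
  intro y hy
  apply ContDiffAt.contDiffWithinAt
  have h1 := hp y hy
  obtain ⟨g, hg⟩ := (proj_covering.apply_eq_iff_mem_orbit).mp h1
  obtain ⟨e, he, hef⟩ := proj_localHomeo (τ y)
  have hcont : ContinuousAt τ y := hτ.continuousAt (hU.mem_nhds hy)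
  have hV : e.source ∈ 𝓝 (τ y) := e.open_source.mem_nhds he
  have hg' : Nil.act g y = τ y := hg
  have hcont2 : ContinuousAt (Nil.act g) y := (Nil.contDiff_act g (n := 0)).continuous.continuousAt
  have hV2 : e.source ∈ 𝓝 (Nil.act g y) := by rw [hg']; exact hV
  have hev : τ =ᶠ[𝓝 y] Nil.act g := by
    filter_upwards [hcont.preimage_mem_nhds hV, hcont2.preimage_mem_nhds hV2, hU.mem_nhds hy]
      with w hw1 hw2 hw3
    apply e.injOn hw1 hw2
    rw [← hef, hp w hw3]
    exact (proj_covering.map_smul g).symm
  exact (Nil.contDiff_act g).contDiffAt.congr_of_eventuallyEq hev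

noncomputable instance isManifold : IsManifold (𝓡 3) ∞ NilM := by
  apply isManifold_of_contDiffOn
  rintro e e' ⟨q, rfl⟩ ⟨q', rfl⟩
  set g := proj_surjective.hasRightInverse.choose
  have hdom : (𝓡 3).symm ⁻¹' (((proj_localHomeo.localInverseAt (g q)).trans
      (chartAt E3 (g q))).symm.trans ((proj_localHomeo.localInverseAt (g q')).trans
      (chartAt E3 (g q')))).source ∩ Set.range (𝓡 3) = (((proj_localHomeo.localInverseAt
        (g q)).trans (chartAt E3 (g q))).symm.trans
        ((proj_localHomeo.localInverseAt (g q')).trans (chartAt E3 (g q')))).source := by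
    simp
  rw [hdom]
  apply contDiffOn_lift
  · exact OpenPartialHomeomorph.open_source _
  · exact (((proj_localHomeo.localInverseAt (g q)).trans
      (chartAt E3 (g q))).symm.trans ((proj_localHomeo.localInverseAt (g q')).trans
      (chartAt E3 (g q')))).continuousOn
  · intro y hy
    simp only [mfld_simps, chartAt_self_eq, IsLocalHomeomorph.localInverseAt_symm] at hy ⊢
    exact proj_localHomeo.apply_localInverseAt_of_mem hy.2

/-- the fundamental group of the quotient is the integral Heisenberg group -/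
noncomputable def fundamentalGroupEquiv : FundamentalGroup NilM (proj 0) ≃* Heis ℤ :=
  (proj_covering.fundamentalGroupEquiv (x := proj 0) ⟨0, rfl⟩).trans (MulEquiv.inv' (Heis ℤ)).symm

end NilM

end Pool.Agent.H45.Lueck
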