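import Mathlib

set_option autoImplicit false

namespace Pool.Agent.H45.SigmaCert

/-- squared modulus of `3 - 4 i z - 3 i z^2 + 4 z^3` on the unit circle -/
def PP (x y : ℝ) : ℝ := (50) + (24)*x + (-28)*x*y + (-72)*x*y^2 + (24)*x^3
/-- squared modulus of `9 - 8 i z - 5 i z^2 + 6 z^3` on the unit circle -/
def QQ (x y : ℝ) : ℝ := (206) + (84)*y + (80)*x + (-12)*x*y + (-324)*x*y^2 + (108)*x^3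

lemma cs_bound (c s : ℝ) (h : c^2+s^2=1) : (-1 ≤ c ∧ c ≤ 1) ∧ (-1 ≤ s ∧ s ≤ 1) := by
  refine ⟨⟨?_, ?_⟩, ?_, ?_⟩ <;> nlinarith [sq_nonneg c, sq_nonneg s]

lemma cert (x y : ℝ) (h : x^2+y^2=1) : 0 < (886 - PP x y - QQ x y)^2 - 4 * PP x y * QQ x y := by
  have b1 := cs_bound ((1)*x) ((1)*y) (by
    have e : ((1)*x)^2 + ((1)*y)^2 = (x^2+y^2)^1 := by ring
    rw [e, h]; norm_num)
  have b2 := cs_bound ((-1)*y^2 + (1)*x^2) ((2)*x*y) (by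
    have e : ((-1)*y^2 + (1)*x^2)^2 + ((2)*x*y)^2 = (x^2+y^2)^2 := by ring
    rw [e, h]; norm_num)
  have b3 := cs_bound ((-3)*x*y^2 + (1)*x^3) ((-1)*y^3 + (3)*x^2*y) (by
    have e : ((-3)*x*y^2 + (1)*x^3)^2 + ((-1)*y^3 + (3)*x^2*y)^2 = (x^2+y^2)^3 := by ring
    rw [e, h]; norm_num)
  have b4 := cs_bound ((1)*y^4 + (-6)*x^2*y^2 + (1)*x^4) ((-4)*x*y^3 + (4)*x^3*y) (by
    have e : ((1)*y^4 + (-6)*x^2*y^2 + (1)*x^4)^2 + ((-4)*x*y^3 + (4)*x^3*y)^2 = (x^2+y^2)^4 := by ring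
    rw [e, h]; norm_num)
  have b5 := cs_bound ((5)*x*y^4 + (-10)*x^3*y^2 + (1)*x^5) ((1)*y^5 + (-10)*x^2*y^3 + (5)*x^4*y) (by
    have e : ((5)*x*y^4 + (-10)*x^3*y^2 + (1)*x^5)^2 + ((1)*y^5 + (-10)*x^2*y^3 + (5)*x^4*y)^2 = (x^2+y^2)^5 := by ring
    rw [e, h]; norm_num)
  have b6 := cs_bound ((-1)*y^6 + (15)*x^2*y^4 + (-15)*x^4*y^2 + (1)*x^6) ((6)*x*y^5 + (-20)*x^3*y^3 + (6)*x^5*y) (by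
    have e : ((-1)*y^6 + (15)*x^2*y^4 + (-15)*x^4*y^2 + (1)*x^6)^2 + ((6)*x*y^5 + (-20)*x^3*y^3 + (6)*x^5*y)^2 = (x^2+y^2)^6 := by ring
    rw [e, h]; norm_num)
  have key : (886 - PP x y - QQ x y)^2 - 4 * PP x y * QQ x y =
      ((499) + (-100)*y + (-218)*x + (83)*y^2 + (160)*x*y + (-83)*x^2 + (-3)*y^3 + (606)*x*y^2 + (9)*x^2*y + (-202)*x^3 + (7)*y^4 + (-28)*x*y^3 + (-42)*x^2*y^2 + (28)*x^3*y + (7)*x^4 + (15)*x*y^4 + (-30)*x^3*y^2 + (3)*x^5 + (-4)*y^6 + (60)*x^2*y^4 + (-60)*x^4*y^2 + (4)*x^6)^2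
      + ((1) + (-218)*y + (100)*x + (80)*y^2 + (-166)*x*y + (-80)*x^2 + (202)*y^3 + (9)*x*y^2 + (-606)*x^2*y + (-3)*x^3 + (-7)*y^4 + (-28)*x*y^3 + (42)*x^2*y^2 + (28)*x^3*y + (-7)*x^4 + (3)*y^5 + (-30)*x^2*y^3 + (15)*x^4*y + (24)*x*y^5 + (-80)*x^3*y^3 + (24)*x^5*y)^2
      + (3605 + (-260)*((1)*x) + (-58)*((1)*y) + (-536)*((-1)*y^2 + (1)*x^2) + (-26)*((2)*x*y) + (-200)*((-3)*x*y^2 + (1)*x^3) + (14)*((-1)*y^3 + (3)*x^2*y) + (-328)*((1)*y^4 + (-6)*x^2*y^2 + (1)*x^4) + (96)*((-4)*x*y^3 + (4)*x^3*y) + (-1250)*((5)*x*y^4 + (-10)*x^3*y^2 + (1)*x^5) + (-134)*((1)*y^5 + (-10)*x^2*y^3 + (5)*x^4*y) + (-464)*((-1)*y^6 + (15)*x^2*y^4 + (-15)*x^4*y^2 + (1)*x^6) + (-8)*((6)*x*y^5 + (-20)*x^3*y^3 + (6)*x^5*y)) := by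
    unfold PP QQ
    linear_combination ((-103093) + (22346)*y + (-50808)*x + (30905)*y^2 + (74016)*x*y + (-132235)*x^2 + (-31738)*y^3 + (-50990)*x*y^2 + (-23114)*x^2*y + (-24726)*x^3 + (-36634)*y^4 + (4552)*x*y^3 + (-86648)*x^2*y^2 + (4872)*x^3*y + (-34238)*x^4 + (1608)*y^5 + (5098)*x*y^4 + (14832)*x^2*y^3 + (-16228)*x^3*y^2 + (424)*x^4*y + (6578)*x^5 + (-615)*y^6 + (-2412)*x*y^5 + (-4845)*x^2*y^4 + (296)*x^3*y^3 + (-2533)*x^4*y^2 + (2708)*x^5*y + (1697)*x^6 + (18)*y^7 + (-4914)*x*y^6 + (150)*x^2*y^5 + (-8278)*x^3*y^4 + (246)*x^4*y^3 + (-1814)*x^5*y^2 + (114)*x^6*y + (1550)*x^7 + (31)*y^8 + (112)*x*y^7 + (12)*x^2*y^6 + (336)*x^3*y^5 + (-150)*x^4*y^4 + (336)*x^5*y^3 + (-212)*x^6*y^2 + (112)*x^7*y + (-81)*x^8 + (-24)*x*y^8 + (-96)*x^3*y^6 + (-144)*x^5*y^4 + (-96)*x^7*y^2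 + (-24)*x^9 + (-16)*y^10 + (-80)*x^2*y^8 + (-160)*x^4*y^6 + (-160)*x^6*y^4 + (-80)*x^8*y^2 + (-16)*x^10) * h
  rw [key]
  have h1 := sq_nonneg ((499) + (-100)*y + (-218)*x + (83)*y^2 + (160)*x*y + (-83)*x^2 + (-3)*y^3 + (606)*x*y^2 + (9)*x^2*y + (-202)*x^3 + (7)*y^4 + (-28)*x*y^3 + (-42)*x^2*y^2 + (28)*x^3*y + (7)*x^4 + (15)*x*y^4 + (-30)*x^3*y^2 + (3)*x^5 + (-4)*y^6 + (60)*x^2*y^4 + (-60)*x^4*y^2 + (4)*x^6)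
  have h2 := sq_nonneg ((1) + (-218)*y + (100)*x + (80)*y^2 + (-166)*x*y + (-80)*x^2 + (202)*y^3 + (9)*x*y^2 + (-606)*x^2*y + (-3)*x^3 + (-7)*y^4 + (-28)*x*y^3 + (42)*x^2*y^2 + (28)*x^3*y + (-7)*x^4 + (3)*y^5 + (-30)*x^2*y^3 + (15)*x^4*y + (24)*x*y^5 + (-80)*x^3*y^3 + (24)*x^5*y)
  obtain ⟨⟨b11, b12⟩, b13, b14⟩ := b1
  obtain ⟨⟨b21, b22⟩, b23, b24⟩ := b2
  obtain ⟨⟨b31, b32⟩, b33, b34⟩ := b3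
  obtain ⟨⟨b41, b42⟩, b43, b44⟩ := b4
  obtain ⟨⟨b51, b52⟩, b53, b54⟩ := b5
  obtain ⟨⟨b61, b62⟩, b63, b64⟩ := b6
  linarith

end Pool.Agent.H45.SigmaCert
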