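import Mathlib
import Pool.Agent.H45.SigmaCert

set_option autoImplicit false

namespace Pool.Agent.H45.SigmaMain
open Complex Pool.Agent.H45.SigmaCert

/-! ### The sup-norm bound -/

/-- `z φ'(z) / z` for `φ(z) = 3 z - 2 i z^2 - i z^3 + z^4`. -/
noncomputable def U (z : ℂ) : ℂ := 3 - 4 * I * z - 3 * I * z ^ 2 + 4 * z ^ 3
/-- `(2 φ(z) + z φ'(z)) / z`. -/
noncomputable def V (z : ℂ) : ℂ := 9 - 8 * I * z - 5 * I * z ^ 2 + 6 * z ^ 3

lemma U_re (x y : ℝ) : (U ⟨x, y⟩).re = 3 + 4*y + 6*x*y - 12*x*y^2 + 4*x^3 := by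
  simp [U, pow_succ]; ring
lemma U_im (x y : ℝ) : (U ⟨x, y⟩).im = -4*x + 3*y^2 - 3*x^2 - 4*y^3 + 12*x^2*y := by
  simp [U, pow_succ]; ring
lemma V_re (x y : ℝ) : (V ⟨x, y⟩).re = 9 + 8*y + 10*x*y - 18*x*y^2 + 6*x^3 := by
  simp [V, pow_succ]; ring
lemma V_im (x y : ℝ) : (V ⟨x, y⟩).im = -8*x + 5*y^2 - 5*x^2 - 6*y^3 + 18*x^2*y := by
  simp [V, pow_succ]; ring

lemma normsq_U (x y : ℝ) (h : x^2+y^2=1) : ‖U ⟨x, y⟩‖^2 = PP x y := by
  rw [Complex.sq_norm, Complex.normSq_apply, U_re, U_im]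
  unfold PP
  linear_combination ((41) + (-24)*y + (24)*x + (25)*y^2 + (-64)*x*y + (25)*x^2 + (-24)*y^3 + (-24)*x^2*y + (16)*y^4 + (32)*x^2*y^2 + (16)*x^4) * h

lemma normsq_V (x y : ℝ) (h : x^2+y^2=1) : ‖V ⟨x, y⟩‖^2 = QQ x y := by
  rw [Complex.sq_norm, Complex.normSq_apply, V_re, V_im]
  unfold QQ
  linear_combination ((125) + (-60)*y + (80)*x + (61)*y^2 + (-192)*x*y + (61)*x^2 + (-60)*y^3 + (-60)*x^2*y + (36)*y^4 + (72)*x^2*y^2 + (36)*x^4) * h

lemma PQ_lt (x y : ℝ) (h : x^2+y^2=1) : PP x y + QQ x y < 886 := by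
  have b1 := cs_bound x y h
  have b3 := cs_bound ((-3)*x*y^2 + (1)*x^3) ((-1)*y^3 + (3)*x^2*y) (by
    have e : ((-3)*x*y^2 + (1)*x^3)^2 + ((-1)*y^3 + (3)*x^2*y)^2 = (x^2+y^2)^3 := by ring
    rw [e, h]; norm_num)
  have b2 := cs_bound ((-1)*y^2 + (1)*x^2) ((2)*x*y) (by
    have e : ((-1)*y^2 + (1)*x^2)^2 + ((2)*x*y)^2 = (x^2+y^2)^2 := by ring
    rw [e, h]; norm_num)
  obtain ⟨⟨b11, b12⟩, b13, b14⟩ := b1
  obtain ⟨⟨b21, b22⟩, b23, b24⟩ := b2
  obtain ⟨⟨b31, b32⟩, b33, b34⟩ := b3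
  unfold PP QQ
  nlinarith

/-- On the unit circle `|u| + |v| ≤ √886`. -/
lemma circle_bound (z : ℂ) (hz : ‖z‖ = 1) : (‖z * U z‖ + ‖z * V z‖) ^ 2 ≤ 886 := by
  obtain ⟨x, y⟩ := z
  have h : x^2+y^2=1 := by
    have := Complex.sq_norm (⟨x, y⟩ : ℂ)
    rw [hz, Complex.normSq_apply] at this
    simp only at this
    nlinarith
  rw [norm_mul, norm_mul, hz, one_mul, one_mul]
  have hU := normsq_U x y h
  have hV := normsq_V x y h
  have hc := cert x y h
  have hlt := PQ_lt x y h
  set a := ‖U ⟨x, y⟩‖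
  set b := ‖V ⟨x, y⟩‖
  have ha : 0 ≤ a := norm_nonneg _
  have hb : 0 ≤ b := norm_nonneg _
  have h1 : 2 * a * b ≤ 886 - a^2 - b^2 := by
    rw [hU, hV]
    apply le_of_sq_le_sq
    · have : (2 * a * b)^2 = 4 * (a^2) * (b^2) := by ring
      rw [this, hU, hV]
      linarith
    · linarith
  nlinarith

/-- Maximum principle: the bound extends to the disc. -/
lemma disc_bound (z : ℂ) (hz : ‖z‖ < 1) : (‖z * U z‖ + ‖z * V z‖) ^ 2 ≤ 886 := by
  obtain ⟨c, hc, hcz⟩ := Complex.exists_norm_eq_mul_self (z * U z)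
  obtain ⟨d, hd, hdz⟩ := Complex.exists_norm_eq_mul_self (z * V z)
  have key : ‖c * (z * U z) + d * (z * V z)‖ ≤ Real.sqrt 886 := by
    refine Complex.norm_le_of_forall_mem_frontier_norm_le (U := Metric.ball (0:ℂ) 1)
      (f := fun w => c * (w * U w) + d * (w * V w)) Metric.isBounded_ball ?_ ?_ ?_
    · apply Differentiable.diffContOnCl
      unfold U V
      fun_prop
    · intro w hw
      rw [frontier_ball (0:ℂ) one_ne_zero] at hw
      have hw1 : ‖w‖ = 1 := by simpa using hw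
      apply Real.le_sqrt_of_sq_le
      refine le_trans ?_ (circle_bound w hw1)
      apply pow_le_pow_left₀ (norm_nonneg _)
      refine (norm_add_le _ _).trans ?_
      rw [norm_mul c, norm_mul d, hc, hd, one_mul, one_mul]
    · apply subset_closure
      simpa using hz
  rw [← hcz, ← hdz, ← Complex.ofReal_add, Complex.norm_real, Real.norm_of_nonneg (by positivity)] at key
  calc (‖z * U z‖ + ‖z * V z‖) ^ 2 ≤ (Real.sqrt 886)^2 := pow_le_pow_left₀ (by positivity) key 2
    _ = 886 := Real.sq_sqrt (by norm_num)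

/-! ### Noshiro-Warschawski on a half plane -/

lemma injOn_of_re_pos {s : Set ℂ} (hs : Convex ℝ s) {G G' : ℂ → ℂ} (lam : ℂ)
    (hG : ∀ z ∈ s, HasDerivAt G (G' z) z) (hre : ∀ z ∈ s, 0 < (lam * G' z).re) :
    Set.InjOn G s := by
  intro a ha b hb hab
  by_contra hne
  -- consider the real function t ↦ re (lam * G (a + t (b-a)) / (b-a))
  have hba : b - a ≠ 0 := sub_ne_zero.mpr (Ne.symm hne)
  let φ : ℝ → ℝ := fun t => (lam * (G (a + t * (b - a)) / (b - a))).re
  have hmem : ∀ t : ℝ, 0 ≤ t → t ≤ 1 → a + (t:ℂ) * (b - a) ∈ s := by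
    intro t h0 h1
    have := hs.add_smul_sub_mem ha hb ⟨h0, h1⟩
    simpa [Complex.real_smul] using this
  have hder : ∀ t : ℝ, 0 ≤ t → t ≤ 1 →
      HasDerivAt φ ((lam * G' (a + t * (b - a))).re) t := by
    intro t h0 h1
    have h2 : HasDerivAt (fun w : ℂ => lam * (G (a + w * (b - a)) / (b - a)))
        (lam * (G' (a + t * (b - a)) * (1 * (b - a)) / (b - a))) (t:ℂ) := by
      have h3 : HasDerivAt (fun w : ℂ => a + w * (b - a)) (1 * (b - a)) (t:ℂ) :=
        ((hasDerivAt_id (t:ℂ)).mul_const (b - a)).const_add a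
      have h4 := HasDerivAt.comp (t:ℂ) (hG _ (hmem t h0 h1)) h3
      exact (h4.div_const (b - a)).const_mul lam
    have h5 := h2.real_of_complex
    convert h5 using 1
    field_simp
  have hcont : ContinuousOn φ (Set.Icc 0 1) := fun t ht =>
    (hder t ht.1 ht.2).continuousAt.continuousWithinAt
  have hmono : StrictMonoOn φ (Set.Icc 0 1) := by
    apply strictMonoOn_of_deriv_pos (convex_Icc 0 1) hcont
    intro t ht
    rw [interior_Icc] at ht
    rw [(hder t ht.1.le ht.2.le).deriv]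
    exact hre _ (hmem t ht.1.le ht.2.le)
  have := hmono (Set.left_mem_Icc.mpr zero_le_one) (Set.right_mem_Icc.mpr zero_le_one) zero_lt_one
  simp [φ, hab] at this

/-! ### The spirallike function -/

/-- `(1 - z)^(-a)` -/
noncomputable def E (a z : ℂ) : ℂ := Complex.exp (-a * Complex.log (1 - z))

lemma one_sub_mem (z : ℂ) (hz : ‖z‖ < 1) : 1 - z ∈ Complex.slitPlane := by
  left
  have := Complex.abs_re_le_norm z
  have h1 : z.re ≤ |z.re| := le_abs_self _
  simp; linarith

lemma E_zero (a : ℂ) : E a 0 = 1 := by simp [E]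

lemma E_hasDerivAt (a z : ℂ) (hz : ‖z‖ < 1) : HasDerivAt (E a) (a * E (a + 1) z) z := by
  have hm := one_sub_mem z hz
  have hne : (1 - z) ≠ 0 := Complex.slitPlane_ne_zero hm
  have h1 : HasDerivAt (fun w : ℂ => 1 - w) (-1) z := by
    simpa using (hasDerivAt_id z).const_sub 1
  have h2 : HasDerivAt (fun w : ℂ => Complex.log (1 - w)) (-1 / (1 - z)) z := h1.clog hm
  have h3 := (h2.const_mul (-a)).cexp
  refine (h3 : HasDerivAt (E a) _ z).congr_deriv ?_
  unfold E
  have : Complex.exp (-(a+1) * Complex.log (1 - z)) =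
      Complex.exp (-a * Complex.log (1 - z)) * (1 - z)⁻¹ := by
    rw [neg_add, add_mul, Complex.exp_add, neg_mul 1, one_mul, Complex.exp_neg (Complex.log (1 - z)),
      Complex.exp_log hne]
  rw [this]
  field_simp

noncomputable def mu : ℂ := (2048 + 64 * I) / 1025
noncomputable def hh (z : ℂ) : ℂ := z * E mu z

lemma lam_mu : (32 - I) * mu = 64 := by
  unfold mu
  have := Complex.I_sq
  field_simp
  ring_nf
  rw [Complex.I_sq]
  norm_num

noncomputable def A (n : ℕ) : ℂ := ∏ j ∈ Finset.range n, (mu + j)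

lemma A_succ (n : ℕ) : A (n+1) = A n * (mu + n) := by
  unfold A; rw [Finset.prod_range_succ]

lemma hh_iter (n : ℕ) : ∀ z : ℂ, ‖z‖ < 1 → iteratedDeriv (n+1) hh z =
    A (n+1) * z * E (mu + n + 1) z + (n+1) * A n * E (mu + n) z := by
  induction n with
  | zero =>
    intro z hz
    rw [zero_add, iteratedDeriv_one]
    have := (hasDerivAt_id z).mul (E_hasDerivAt mu z hz)
    have h2 : HasDerivAt hh (1 * E mu z + z * (mu * E (mu + 1) z)) z := this
    rw [h2.deriv]
    simp [A]
    ring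
  | succ n ih =>
    intro z hz
    rw [iteratedDeriv_succ]
    have hev : iteratedDeriv (n+1) hh =ᶠ[nhds z] fun w => A (n+1) * w * E (mu + n + 1) w
        + (n+1) * A n * E (mu + n) w := by
      have : ∀ᶠ w in nhds z, ‖w‖ < 1 := (isOpen_lt continuous_norm continuous_const).mem_nhds hz
      filter_upwards [this] with w hw using ih w hw
    rw [hev.deriv_eq]
    have h1 := (((hasDerivAt_id z).const_mul (A (n+1))).mul (E_hasDerivAt (mu + n + 1) z hz)).add
      ((E_hasDerivAt (mu + n) z hz).const_mul ((n+1) * A n))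
    have h2 : HasDerivAt (fun w => A (n+1) * w * E (mu + n + 1) w
        + (n+1) * A n * E (mu + n) w) _ z := h1
    rw [h2.deriv]
    rw [A_succ (n+1)]
    have h3 : A (n+1) = A n * (mu + n) := A_succ n
    push_cast
    simp only [id]
    have e1 : mu + (n:ℂ) + 1 + 1 = mu + ((n:ℂ) + 1) + 1 := by ring
    have e2 : mu + (n:ℂ) + 1 = mu + ((n:ℂ) + 1) := by ring
    rw [e1, e2]
    rw [h3]
    ring

lemma hh_coeff (n : ℕ) : iteratedDeriv (n+1) hh 0 = (n+1) * A n := by
  rw [hh_iter n 0 (by simp), E_zero, E_zero]; ring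

lemma hh_diff : DifferentiableOn ℂ hh (Metric.ball 0 1) := by
  intro z hz
  have hz' : ‖z‖ < 1 := by simpa using hz
  exact ((hasDerivAt_id z).mul (E_hasDerivAt mu z hz')).differentiableAt.differentiableWithinAt

lemma re_aux (w : ℂ) (hw : ‖w‖ < 1) : 0 < (32 - I + 64 * (w / (1 - w))).re := by
  have hne : (1 - w) ≠ 0 := Complex.slitPlane_ne_zero (one_sub_mem w hw)
  have h1 : 32 - I + 64 * (w / (1 - w)) = 32 * ((1 + w) / (1 - w)) - I := by
    field_simp; ring
  rw [h1]
  have h2 : ((1 + w) / (1 - w)).re = (1 - Complex.normSq w) / Complex.normSq (1 - w) := by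
    rw [Complex.div_re]
    have : Complex.normSq (1 - w) ≠ 0 := by simpa using hne
    field_simp
    rw [Complex.normSq_apply w]
    simp
    ring
  have h3 : 0 < ((1 + w) / (1 - w)).re := by
    rw [h2]
    apply div_pos
    · rw [← Complex.sq_norm]
      nlinarith [norm_nonneg w]
    · exact Complex.normSq_pos.mpr hne
  simp only [Complex.sub_re, Complex.I_re, sub_zero]
  have h4 : (32 * ((1 + w) / (1 - w))).re = 32 * ((1 + w) / (1 - w)).re := by
    simp [Complex.mul_re]
  rw [h4]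
  positivity

lemma hh_inj : Set.InjOn hh (Metric.ball 0 1) := by
  -- G(ζ) = ζ - mu log (1 - e^ζ) on the left half plane
  let G : ℂ → ℂ := fun ζ => ζ - mu * Complex.log (1 - Complex.exp ζ)
  have hG : Set.InjOn G {ζ : ℂ | ζ.re < 0} := by
    apply injOn_of_re_pos (convex_halfSpace_re_lt 0) (32 - I)
      (G' := fun ζ => 1 - mu * (-Complex.exp ζ / (1 - Complex.exp ζ)))
    · intro ζ hζ
      have hn : ‖Complex.exp ζ‖ < 1 := by
        rw [Complex.norm_exp]; exact Real.exp_lt_one_iff.mpr hζ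
      have hm := one_sub_mem _ hn
      have h1 : HasDerivAt (fun w : ℂ => 1 - Complex.exp w) (-Complex.exp ζ) ζ := by
        simpa using (Complex.hasDerivAt_exp ζ).const_sub 1
      exact (hasDerivAt_id ζ).sub ((h1.clog hm).const_mul mu)
    · intro ζ hζ
      have hn : ‖Complex.exp ζ‖ < 1 := by
        rw [Complex.norm_exp]; exact Real.exp_lt_one_iff.mpr hζ
      have h2 := re_aux _ hn
      have h3 : (32 - I) * (1 - mu * (-Complex.exp ζ / (1 - Complex.exp ζ))) =
          32 - I + 64 * (Complex.exp ζ / (1 - Complex.exp ζ)) := by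
        have := lam_mu
        calc (32 - I) * (1 - mu * (-Complex.exp ζ / (1 - Complex.exp ζ)))
            = 32 - I + ((32 - I) * mu) * (Complex.exp ζ / (1 - Complex.exp ζ)) := by ring
          _ = _ := by rw [this]
      rw [h3]; exact h2
  intro z hz w hw hzw
  have hz' : ‖z‖ < 1 := by simpa using hz
  have hw' : ‖w‖ < 1 := by simpa using hw
  by_cases hz0 : z = 0
  · subst hz0
    have : w * E mu w = 0 := by
      have : hh w = 0 := by rw [← hzw]; simp [hh]
      exact this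
    rcases mul_eq_zero.mp this with h | h
    · exact h.symm
    · exact absurd h (Complex.exp_ne_zero _)
  by_cases hw0 : w = 0
  · subst hw0
    have : z * E mu z = 0 := by
      have : hh z = 0 := by rw [hzw]; simp [hh]
      exact this
    rcases mul_eq_zero.mp this with h | h
    · exact h
    · exact absurd h (Complex.exp_ne_zero _)
  -- both nonzero
  have ez : hh z = Complex.exp (G (Complex.log z)) := by
    simp only [hh, E, G]
    rw [Complex.exp_log hz0, sub_eq_add_neg (Complex.log z), Complex.exp_add, Complex.exp_log hz0]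
    ring_nf
  have ew : hh w = Complex.exp (G (Complex.log w)) := by
    simp only [hh, E, G]
    rw [Complex.exp_log hw0, sub_eq_add_neg (Complex.log w), Complex.exp_add, Complex.exp_log hw0]
    ring_nf
  rw [ez, ew, Complex.exp_eq_exp_iff_exists_int] at hzw
  obtain ⟨n, hn⟩ := hzw
  have hshift : G (Complex.log w + n * (2 * Real.pi * I)) = G (Complex.log w) + n * (2 * Real.pi * I) := by
    simp only [G]
    have : Complex.exp (Complex.log w + n * (2 * Real.pi * I)) = Complex.exp (Complex.log w) := by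
      rw [Complex.exp_eq_exp_iff_exists_int]; exact ⟨n, rfl⟩
    rw [this]; ring
  rw [← hshift] at hn
  have hlz : Complex.log z ∈ {ζ : ℂ | ζ.re < 0} := by
    simp only [Set.mem_setOf_eq, Complex.log_re]
    exact Real.log_neg (norm_pos_iff.mpr hz0) hz'
  have hlw : Complex.log w + n * (2 * Real.pi * I) ∈ {ζ : ℂ | ζ.re < 0} := by
    simp only [Set.mem_setOf_eq, Complex.add_re, Complex.log_re]
    have : ((n:ℂ) * (2 * Real.pi * I)).re = 0 := by simp
    rw [this, add_zero]
    exact Real.log_neg (norm_pos_iff.mpr hw0) hw'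
  have := hG hlz hlw hn
  calc z = Complex.exp (Complex.log z) := (Complex.exp_log hz0).symm
    _ = Complex.exp (Complex.log w + n * (2 * Real.pi * I)) := by rw [this]
    _ = Complex.exp (Complex.log w) := by
      rw [Complex.exp_eq_exp_iff_exists_int]; exact ⟨n, rfl⟩
    _ = w := Complex.exp_log hw0

end Pool.Agent.H45.SigmaMain
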